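import Pool.Agent.Work.MP_866acd_pr.Smooth

/-!
Asymptotic variance in terms of the renewal coefficients, and the matching argument.
-/

namespace Pool.Agent.Work.MP_866acd_pr

open Polynomial Finset Filter Topology

variable {V : Type} [Fintype V] (S : Sys V) {R R' : Type} [CommRing R] [Algebra ℝ R]
  [CommRing R'] [Algebra ℝ R']

namespace Sys

lemma map_gv (φ : R →ₐ[ℝ] R') : (fun v => φ (S.gv R v)) = S.gv R' := by
  unfold gv
  rw [map_Gop, map_ev]

lemma map_cvec (φ : R →ₐ[ℝ] R') (y : R) (k : ℕ) :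
    (fun v => φ (S.cvec y k v)) = S.cvec (φ y) k := by
  induction k with
  | zero =>
    change (fun v => φ (S.Eop (S.gv R) v)) = S.Eop (S.gv R')
    rw [map_Eop, map_gv]
  | succ k ih =>
    change (fun v => φ (S.Eop (S.Dop y (S.cvec y k)) v)) = S.Eop (S.Dop (φ y) (S.cvec (φ y) k))
    rw [map_Eop, map_Dop, ih]

lemma map_cc (φ : R →ₐ[ℝ] R') (y : R) (k : ℕ) : φ (S.cc y k) = S.cc (φ y) k := by
  unfold cc
  rw [map_bil, map_cvec, map_gv]

lemma cc_eval (k : ℕ) : (S.cc (X : ℝ[X]) k).eval 1 = S.cc (1 : ℝ) k := by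
  have := S.map_cc (aeval (1 : ℝ)) (X : ℝ[X]) k
  rw [aeval_X] at this
  rw [← this]
  simp [aeval_def]

lemma U_eval (t : ℕ) : (S.U (X : ℝ[X]) t).eval 1 = 1 := by
  have := S.map_U (aeval (1 : ℝ)) (X : ℝ[X]) t
  rw [aeval_X] at this
  have h2 : (S.U (X : ℝ[X]) t).eval 1 = S.U (1 : ℝ) t := by
    rw [← this]
    simp [aeval_def]
  rw [h2]
  induction t with
  | zero => exact S.U_zero _
  | succ t ih =>
    have h3 := S.map_U (aeval (1 : ℝ)) (X : ℝ[X]) t
    rw [aeval_X] at h3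
    have h4 : (S.U (X : ℝ[X]) t).eval 1 = S.U (1 : ℝ) t := by
      rw [← h3]
      simp [aeval_def]
    rw [U_rec, ih h3 h4]
    ring

/-- the second order term in the recursion -/
noncomputable def Yt (t : ℕ) : ℝ[X] :=
  match t with
  | 0 => 0
  | t + 1 => PowerSeries.coeff t (S.cps * S.Ups)

lemma U_step (t : ℕ) : S.U (X : ℝ[X]) (t + 1) =
    (1 + C S.p1 * z) * S.U X t + z ^ 2 * S.Yt t := by
  have h := S.renewal
  have e0 : PowerSeries.X * PowerSeries.C (1 + C S.p1 * z) * S.Ups =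
      PowerSeries.X * (PowerSeries.C (1 + C S.p1 * z) * S.Ups) := by ring
  have e1 : PowerSeries.X ^ 2 * PowerSeries.C (z ^ 2) * S.cps * S.Ups =
      PowerSeries.X * (PowerSeries.X * (PowerSeries.C (z ^ 2) * (S.cps * S.Ups))) := by
    ring
  rw [e0, e1] at h
  have h1 : PowerSeries.coeff (t + 1) S.Ups = S.U X (t + 1) := by
    unfold Ups; rw [PowerSeries.coeff_mk]
  have h2 : PowerSeries.coeff t S.Ups = S.U X t := by
    unfold Ups; rw [PowerSeries.coeff_mk]
  rw [← h1, h, map_add, map_add, PowerSeries.coeff_succ_X_mul, PowerSeries.coeff_succ_X_mul,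
      PowerSeries.coeff_one, if_neg (by omega), zero_add, PowerSeries.coeff_C_mul, h2]
  congr 1
  cases t with
  | zero => rw [PowerSeries.coeff_zero_X_mul]; unfold Yt; rw [mul_zero]
  | succ t => rw [PowerSeries.coeff_succ_X_mul, PowerSeries.coeff_C_mul]; rfl

lemma Yt_eval (t : ℕ) : (S.Yt t).eval 1 = ∑ k ∈ range t, S.cc (1 : ℝ) k := by
  cases t with
  | zero => simp [Yt]
  | succ t =>
    change (PowerSeries.coeff t (S.cps * S.Ups)).eval 1 = _
    rw [PowerSeries.coeff_mul, eval_finsetSum, Finset.Nat.sum_antidiagonal_eq_sum_range_succ_mk]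
    refine sum_congr rfl fun k _ => ?_
    unfold cps Ups
    rw [PowerSeries.coeff_mk, PowerSeries.coeff_mk, eval_mul, U_eval, cc_eval, mul_one]

/-- first derivative -/
lemma U_der (t : ℕ) : (derivative (S.U (X : ℝ[X]) t)).eval 1 = S.p1 * t := by
  induction t with
  | zero => rw [U_zero]; simp
  | succ t ih =>
    rw [U_step]
    have hz : derivative z = 1 := by unfold z; simp
    have hz1 : z.eval 1 = 0 := by unfold z; simp
    simp only [derivative_mul, derivative_add, derivative_one, derivative_C, hz,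
      derivative_pow, eval_add, eval_mul, eval_pow, eval_C, eval_one, hz1, U_eval, ih]
    simp
    ring

/-- second derivative -/
lemma U_der2 (t : ℕ) : (derivative (derivative (S.U (X : ℝ[X]) (t + 1)))).eval 1 =
    (derivative (derivative (S.U (X : ℝ[X]) t))).eval 1 + 2 * S.p1 * (S.p1 * t) +
      2 * ∑ k ∈ range t, S.cc (1 : ℝ) k := by
  rw [U_step, ← Yt_eval]
  have hz : derivative z = 1 := by unfold z; simp
  have hz1 : z.eval 1 = 0 := by unfold z; simp
  have hd := S.U_der t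
  have e1 : derivative (derivative ((1 + C S.p1 * z) * S.U X t + z ^ 2 * S.Yt t)) =
      2 * C S.p1 * derivative (S.U X t) + (1 + C S.p1 * z) * derivative (derivative (S.U X t)) +
      2 * S.Yt t + z * (4 * derivative (S.Yt t) + z * derivative (derivative (S.Yt t))) := by
    simp only [derivative_mul, derivative_add, derivative_one, derivative_C, hz, pow_two,
      derivative_zero]
    ring
  rw [e1]
  simp only [eval_add, eval_mul, eval_C, eval_one, hz1, hd, eval_ofNat]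
  ring

/-- variance -/
noncomputable def var (t : ℕ) : ℝ := (derivative (derivative (S.U (X : ℝ[X]) t))).eval 1 +
  (derivative (S.U (X : ℝ[X]) t)).eval 1 - ((derivative (S.U (X : ℝ[X]) t)).eval 1) ^ 2

lemma var_eq (t : ℕ) : S.var t = ∑ i ∈ range t,
    (S.p1 * (1 - S.p1) + 2 * ∑ k ∈ range i, S.cc (1 : ℝ) k) := by
  induction t with
  | zero => unfold var; rw [U_zero]; simp
  | succ t ih =>
    rw [sum_range_succ, ← ih]
    unfold var
    rw [U_der2, U_der, U_der]
    push_cast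
    ring

lemma cc1_bound {lam : ℝ} (h0 : 0 ≤ lam) (hl : lam ≤ 1 / 50) (hE : S.Small lam) (k : ℕ) :
    |S.cc (1 : ℝ) k| ≤ S.p1 * (1 - S.p1) * lam * (1 / 4) ^ k := by
  rw [← cc_eval]
  exact (abs_eval_one_le _).trans (S.cc_bound h0 hl hE k).1

lemma cc1_summable {lam : ℝ} (h0 : 0 ≤ lam) (hl : lam ≤ 1 / 50) (hE : S.Small lam) :
    Summable fun k => S.cc (1 : ℝ) k := by
  apply Summable.of_norm_bounded (g := fun k => S.p1 * (1 - S.p1) * lam * (1 / 4 : ℝ) ^ k)
  · exact (summable_geometric_of_lt_one (by norm_num) (by norm_num)).mul_left _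
  · intro k
    rw [Real.norm_eq_abs]
    exact S.cc1_bound h0 hl hE k

lemma var_tendsto {lam : ℝ} (h0 : 0 ≤ lam) (hl : lam ≤ 1 / 50) (hE : S.Small lam) :
    Tendsto (fun t : ℕ => S.var t / t) atTop
      (𝓝 (S.p1 * (1 - S.p1) + 2 * ∑' k, S.cc (1 : ℝ) k)) := by
  have h1 := (S.cc1_summable h0 hl hE).hasSum.tendsto_sum_nat
  have h2 : Tendsto (fun i => S.p1 * (1 - S.p1) + 2 * ∑ k ∈ range i, S.cc (1 : ℝ) k) atTop
      (𝓝 (S.p1 * (1 - S.p1) + 2 * ∑' k, S.cc (1 : ℝ) k)) :=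
    tendsto_const_nhds.add (h1.const_mul 2)
  have h3 := h2.cesaro
  refine h3.congr fun t => ?_
  rw [var_eq, div_eq_inv_mul]

lemma tsum_bound {lam : ℝ} (h0 : 0 ≤ lam) (hl : lam ≤ 1 / 50) (hE : S.Small lam) (n : ℕ) :
    |∑' k, S.cc (1 : ℝ) (k + n)| ≤ S.p1 * (1 - S.p1) * lam * (4 / 3) * (1 / 4) ^ n := by
  have hs : Summable fun k => S.p1 * (1 - S.p1) * lam * (1 / 4 : ℝ) ^ (k + n) := by
    have := (summable_geometric_of_lt_one (r := (1 / 4 : ℝ)) (by norm_num) (by norm_num)).mul_left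
      (S.p1 * (1 - S.p1) * lam * (1 / 4) ^ n)
    refine this.congr fun k => ?_
    rw [pow_add]; ring
  have h1 : ‖∑' k, S.cc (1 : ℝ) (k + n)‖ ≤ ∑' k, S.p1 * (1 - S.p1) * lam * (1 / 4 : ℝ) ^ (k + n) := by
    apply tsum_of_norm_bounded hs.hasSum
    intro k
    rw [Real.norm_eq_abs]
    exact S.cc1_bound h0 hl hE _
  rw [Real.norm_eq_abs] at h1
  refine h1.trans (le_of_eq ?_)
  have e : ∀ k, S.p1 * (1 - S.p1) * lam * (1 / 4 : ℝ) ^ (k + n) =
      S.p1 * (1 - S.p1) * lam * (1 / 4) ^ n * (1 / 4) ^ k := by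
    intro k; rw [pow_add]; ring
  simp only [e]
  rw [tsum_mul_left, tsum_geometric_of_lt_one (by norm_num) (by norm_num)]
  norm_num
  ring

/-- comparison of two systems with the same `p` and the same limiting variance -/
theorem compare_systems {p : ℝ} (hp0 : 0 < p) (hp1 : p < 1) : ∃ C : ℝ, 0 ≤ C ∧
    ∀ (V V' : Type) [Fintype V] [Fintype V'] (S : Sys V) (S' : Sys V'), S.p1 = p → S'.p1 = p →
      ∀ lam lam' : ℝ, 0 ≤ lam → lam ≤ 1 / 50 → 0 ≤ lam' → lam' ≤ 1 / 50 → lam' ≤ 2 * lam →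
      S.Small lam → S'.Small lam' →
      ∑' k, S.cc (1 : ℝ) k = ∑' k, S'.cc (1 : ℝ) k →
      ∀ t : ℕ, N (S.U X t - S'.U X t) ≤ C * lam / Real.sqrt ((t : ℝ) + 1) := by
  obtain ⟨C0, hC0, H0⟩ := smooth hp0 hp1 0
  obtain ⟨C2, hC2, H2⟩ := smooth hp0 hp1 2
  obtain ⟨C3, hC3, H3⟩ := smooth hp0 hp1 3
  set B := Real.sqrt C0 with hB
  set B2 := Real.sqrt C2 with hB2
  set B3 := Real.sqrt C3 with hB3
  have hB0 : 0 ≤ B := Real.sqrt_nonneg _
  have hB20 : 0 ≤ B2 := Real.sqrt_nonneg _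
  have hB30 : 0 ≤ B3 := Real.sqrt_nonneg _
  refine ⟨4 * (2 * B2 + 2 * (2 * (4 * B * B3)) +
      4 * (2 * (2 * 1 * (2 * (4 * B * B3)))) + 2 * (4 * B * B3)), by positivity, ?_⟩
  intro V V' _ _ S S' hp hp' lam lam' h0 hl h0' hl' hll hE hE' hsum t
  have key0 : ∀ (V : Type) [Fintype V] (S : Sys V), S.p1 = p → ∀ lam : ℝ, 0 ≤ lam →
      lam ≤ 1 / 50 → S.Small lam → ∀ n, N (PowerSeries.coeff n S.Ups) ≤ B := by
    intro V _ S hp lam h0 hl hE n
    have h := H0 V S hp lam h0 hl hE n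
    rw [pow_zero, pow_zero, one_mul, div_one] at h
    unfold Ups
    rw [PowerSeries.coeff_mk]
    exact Real.le_sqrt_of_sq_le h
  have key3 : ∀ (V : Type) [Fintype V] (S : Sys V), S.p1 = p → ∀ lam : ℝ, 0 ≤ lam →
      lam ≤ 1 / 50 → S.Small lam → ∀ n : ℕ, N (z ^ 3 * PowerSeries.coeff n S.Ups) ≤
        B3 / (((n : ℝ) + 1) * Real.sqrt (n + 1)) := by
    intro V _ S hp lam h0 hl hE n
    have h := H3 V S hp lam h0 hl hE n
    unfold Ups
    rw [PowerSeries.coeff_mk]
    have hn : (0 : ℝ) < (n : ℝ) + 1 := by positivity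
    have h2 := Real.le_sqrt_of_sq_le h
    refine h2.trans (le_of_eq ?_)
    rw [Real.sqrt_div hC3]
    congr 1
    rw [show ((n : ℝ) + 1) ^ 3 = ((n : ℝ) + 1) ^ 2 * ((n : ℝ) + 1) by ring,
      Real.sqrt_mul (by positivity), Real.sqrt_sq hn.le]
  have key2 : ∀ (V : Type) [Fintype V] (S : Sys V), S.p1 = p → ∀ lam : ℝ, 0 ≤ lam →
      lam ≤ 1 / 50 → S.Small lam → Dec (PowerSeries.C (z ^ 2) * S.Ups) B2 := by
    intro V _ S hp lam h0 hl hE n
    have h := H2 V S hp lam h0 hl hE n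
    unfold Ups
    rw [PowerSeries.coeff_C_mul, PowerSeries.coeff_mk]
    have hn : (1 : ℝ) ≤ (n : ℝ) + 1 := by
      have : (0 : ℝ) ≤ n := by positivity
      linarith
    have h2 := Real.le_sqrt_of_sq_le h
    refine h2.trans ?_
    rw [Real.sqrt_div hC2, Real.sqrt_sq (by linarith)]
    apply div_le_div_of_nonneg_left hB20 (Real.sqrt_pos.2 (by linarith))
    rw [Real.sqrt_le_left (by linarith)]
    nlinarith
  set δ : ℕ → ℝ := fun k => S.cc (1 : ℝ) k - S'.cc (1 : ℝ) k with hδ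
  set T : ℕ → ℝ := fun n => ∑ k ∈ range (n + 1), δ k with hT
  set d : PS := PowerSeries.mk fun k => hat (S.cc X k) - hat (S'.cc X k) with hd
  have hp1p : p * (1 - p) ≤ 1 / 4 := by nlinarith [sq_nonneg (p - 1 / 2)]
  have hp1p0 : 0 ≤ p * (1 - p) := mul_nonneg hp0.le (by linarith)
  have hsumδ : ∀ n, T n = -((∑' k, S.cc (1 : ℝ) (k + (n + 1))) - ∑' k, S'.cc (1 : ℝ) (k + (n + 1))) := by
    intro n
    have s1 := (S.cc1_summable h0 hl hE).sum_add_tsum_nat_add (n + 1)
    have s2 := (S'.cc1_summable h0' hl' hE').sum_add_tsum_nat_add (n + 1)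
    simp only [hT, hδ]
    rw [sum_sub_distrib]
    linarith
  have hTb : ∀ n, |T n| ≤ lam * (1 / 4) ^ n := by
    intro n
    rw [hsumδ, abs_neg]
    refine (abs_sub _ _).trans ?_
    have b1 := S.tsum_bound h0 hl hE (n + 1)
    have b2 := S'.tsum_bound h0' hl' hE' (n + 1)
    rw [hp] at b1
    rw [hp'] at b2
    have e1 : p * (1 - p) * lam * (4 / 3) * (1 / 4) ^ (n + 1) +
      p * (1 - p) * lam' * (4 / 3) * (1 / 4) ^ (n + 1) =
      (1 / 4 : ℝ) ^ n * (p * (1 - p) * ((lam + lam') / 3)) := by ring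
    have e2 : p * (1 - p) * ((lam + lam') / 3) ≤ lam := by
      have : p * (1 - p) * ((lam + lam') / 3) ≤ 1 / 4 * ((lam + lam') / 3) :=
        mul_le_mul_of_nonneg_right hp1p (by linarith)
      linarith
    have e3 := mul_le_mul_of_nonneg_left e2 (by positivity : (0 : ℝ) ≤ (1 / 4) ^ n)
    linarith
  have hdG : Geo d lam := by
    intro n
    rw [hd, PowerSeries.coeff_mk]
    refine (N_sub_le _ _).trans ?_
    have b1 := (S.cc_bound h0 hl hE n).2
    have b2 := (S'.cc_bound h0' hl' hE' n).2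
    rw [hp] at b1
    rw [hp'] at b2
    have e1 : p * (1 - p) * lam * (1 / 4) ^ n + p * (1 - p) * lam' * (1 / 4) ^ n =
      (1 / 4 : ℝ) ^ n * (p * (1 - p) * (lam + lam')) := by ring
    have e2 : p * (1 - p) * (lam + lam') ≤ lam := by
      have : p * (1 - p) * (lam + lam') ≤ 1 / 4 * (lam + lam') :=
        mul_le_mul_of_nonneg_right hp1p (by linarith)
      linarith
    have e3 := mul_le_mul_of_nonneg_left e2 (by positivity : (0 : ℝ) ≤ (1 / 4) ^ n)
    linarith
  have hcG : Geo S.cps 1 := by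
    intro n
    unfold cps
    rw [PowerSeries.coeff_mk, one_mul]
    have b1 := (S.cc_bound h0 hl hE n).1
    rw [hp] at b1
    refine b1.trans ?_
    have : p * (1 - p) * lam ≤ 1 := by
      have : p * (1 - p) * lam ≤ 1 / 4 * lam := mul_le_mul_of_nonneg_right hp1p h0
      linarith
    have := mul_le_mul_of_nonneg_right this (by positivity : (0 : ℝ) ≤ (1 / 4) ^ n)
    linarith
  have hdec : S.cps - S'.cps = (1 - PowerSeries.X) * cst T + PowerSeries.C z * d := by
    ext1 n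
    have e : (1 - PowerSeries.X) * cst T = cst T - PowerSeries.X * cst T := by ring
    rw [e, map_sub, map_add, map_sub, PowerSeries.coeff_C_mul]
    unfold cps cst
    rw [hd]
    simp only [PowerSeries.coeff_mk]
    have h1 := hat_spec (S.cc (X : ℝ[X]) n)
    have h2 := hat_spec (S'.cc (X : ℝ[X]) n)
    rw [cc_eval] at h1 h2
    have h3 : (Polynomial.C (T n) - PowerSeries.coeff n
        (PowerSeries.X * PowerSeries.mk fun n => (Polynomial.C (T n) : ℝ[X])) : ℝ[X]) =
        Polynomial.C (δ n) := by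
      cases n with
      | zero =>
        rw [PowerSeries.coeff_zero_X_mul]
        simp [hT]
      | succ n =>
        rw [PowerSeries.coeff_succ_X_mul, PowerSeries.coeff_mk, ← C_sub]
        congr 1
        simp only [hT]
        rw [sum_range_succ (fun k => δ k) (n + 1)]
        ring
    rw [h3]
    simp only [hδ, C_sub]
    linear_combination h1 - h2
  have hren := S.renewal
  have hren' := S'.renewal
  rw [hp] at hren
  rw [hp'] at hren'
  have hfin := compare hp0.le hp1.le hB0 hB30 hren hren' (key0 V S hp lam h0 hl hE)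
    (key0 V' S' hp' lam' h0' hl' hE') (key2 V' S' hp' lam' h0' hl' hE')
    (key3 V S hp lam h0 hl hE) (key3 V' S' hp' lam' h0' hl' hE') hcG hdec hTb hdG t
  rw [map_sub] at hfin
  unfold Ups at hfin
  rw [PowerSeries.coeff_mk, PowerSeries.coeff_mk] at hfin
  refine hfin.trans (le_of_eq ?_)
  ring

end Sys

end Pool.Agent.Work.MP_866acd_pr
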