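import Pool.Agent.Work.MP_866acd_pr.Defs
import Pool.Agent.Work.MP_866acd_pr.Var

/-!
The path sums and the abstract systems.
-/

namespace Pool.Agent.Work.MP_866acd_pr

open Polynomial Finset Filter Topology

variable {V : Type} [Fintype V]

/-- generating function of the remaining steps -/
noncomputable def Rv (P : V → V → ℝ) (val : V → Fin 2) : ℕ → V → ℝ[X]
  | 0, _ => 1
  | t + 1, v => ∑ w, C (P v w) * X ^ (val w : ℕ) * Rv P val t w

lemma path_sum (P : V → V → ℝ) (val : V → Fin 2) (t : ℕ) : ∀ h : V → ℝ,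
    ∑ ω : Fin (t + 1) → V, C (pathProb h P (t + 1) ω) * X ^ labelSum val ω =
      ∑ v, C (h v) * X ^ (val v : ℕ) * Rv P val t v := by
  induction t with
  | zero =>
    intro h
    rw [← (Equiv.funUnique (Fin 1) V).symm.sum_comp]
    refine sum_congr rfl fun v _ => ?_
    simp [pathProb, labelSum, Rv]
  | succ t ih =>
    intro h
    rw [← (Fin.consEquiv (fun _ : Fin (t + 2) => V)).sum_comp, Fintype.sum_prod_type]
    refine sum_congr rfl fun v _ => ?_
    rw [Rv, mul_sum]
    have h1 : ∀ ω : Fin (t + 1) → V,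
        C (pathProb h P (t + 2) (Fin.consEquiv (fun _ : Fin (t + 2) => V) (v, ω))) *
          X ^ labelSum val (Fin.consEquiv (fun _ : Fin (t + 2) => V) (v, ω)) =
        C (h v) * X ^ (val v : ℕ) * (C (pathProb (P v) P (t + 1) ω) * X ^ labelSum val ω) := by
      intro ω
      have e1 : pathProb h P (t + 2) (Fin.consEquiv (fun _ : Fin (t + 2) => V) (v, ω)) =
          h v * pathProb (P v) P (t + 1) ω := by
        simp only [pathProb, Fin.consEquiv, Equiv.coe_fn_mk]
        rw [Fin.prod_univ_succ]
        simp only [Fin.cons_zero, Fin.castSucc_zero, Fin.cons_succ, ← Fin.succ_castSucc]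
      have e2 : labelSum val (Fin.consEquiv (fun _ : Fin (t + 2) => V) (v, ω)) =
          (val v : ℕ) + labelSum val ω := by
        simp only [labelSum, Fin.consEquiv, Equiv.coe_fn_mk]
        rw [Fin.sum_univ_succ]
        simp
      rw [e1, e2, C_mul, pow_add]
      ring
    simp only [h1]
    rw [← mul_sum, ih (P v), mul_sum]

/-- compatibility of a system with a chain -/
structure Compat (S : Sys V) (π : V → ℝ) (P : V → V → ℝ) (val : V → Fin 2) : Prop where
  f : ∀ v, S.f v = ((val v : ℕ) : ℝ)
  pi : ∀ v, π v = S.e v * S.e v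
  ker : ∀ v w, S.e v * P v w = (S.e v * S.e w + S.E v w) * S.e w

lemma D_eq {S : Sys V} {π : V → ℝ} {P : V → V → ℝ} {val : V → Fin 2} (h : Compat S π P val)
    (v : V) : (1 + (X - 1) * algebraMap ℝ ℝ[X] (S.f v)) = X ^ (val v : ℕ) := by
  rw [h.f]
  have : (val v : ℕ) = 0 ∨ (val v : ℕ) = 1 := by have := (val v).isLt; omega
  rcases this with h | h
  · rw [h]; simp
  · rw [h]; simp

lemma vec_Rv {S : Sys V} {π : V → ℝ} {P : V → V → ℝ} {val : V → Fin 2} (h : Compat S π P val)
    (t : ℕ) : ∀ v, S.vec X t v = C (S.e v) * Rv P val t v := by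
  induction t with
  | zero =>
    intro v
    change algebraMap ℝ ℝ[X] (S.e v) = _
    rw [Rv, mul_one, algebraMap_eq]
  | succ t ih =>
    intro v
    change S.Wop (S.Dop X (S.vec X t)) v = _
    unfold Sys.Wop Sys.Eop Sys.bil Sys.Dop Sys.ev
    rw [Rv, sum_mul, mul_sum, ← sum_add_distrib]
    refine sum_congr rfl fun w _ => ?_
    rw [D_eq h, ih w]
    simp only [algebraMap_eq]
    have e : (C (S.e v) * C (P v w) : ℝ[X]) = (C (S.e v) * C (S.e w) + C (S.E v w)) * C (S.e w) := by
      rw [← C_mul, h.ker, C_mul, C_add, C_mul]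
    linear_combination (-(X ^ (val w : ℕ) * Rv P val t w)) * e

theorem genfun {S : Sys V} {π : V → ℝ} {P : V → V → ℝ} {val : V → Fin 2} (h : Compat S π P val)
    (t : ℕ) : ∑ ω : Fin t → V, C (pathProb π P t ω) * X ^ labelSum val ω = S.U X t := by
  cases t with
  | zero =>
    rw [S.U_zero]
    simp [pathProb, labelSum]
  | succ t =>
    rw [path_sum, S.U_succ]
    unfold Sys.bil Sys.Dop Sys.ev
    refine sum_congr rfl fun v _ => ?_
    rw [D_eq h, vec_Rv h, algebraMap_eq, h.pi, C_mul]
    ring

lemma sumLaw_eq {S : Sys V} {π : V → ℝ} {P : V → V → ℝ} {val : V → Fin 2} (h : Compat S π P val)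
    (t k : ℕ) : sumLaw π P val t k = (S.U X t).coeff k := by
  rw [← genfun h, finsetSum_coeff]
  unfold sumLaw
  refine sum_congr rfl fun ω _ => ?_
  rw [coeff_C_mul_X_pow]
  by_cases hk : labelSum val ω = k
  · rw [if_pos hk, if_pos hk.symm]
  · rw [if_neg hk, if_neg (fun h => hk h.symm)]

lemma sumVar_eq {S : Sys V} {π : V → ℝ} {P : V → V → ℝ} {val : V → Fin 2} (h : Compat S π P val)
    (t : ℕ) : sumVar π P val t = S.var t := by
  unfold sumVar Sys.var
  have h1 : (derivative (S.U (X : ℝ[X]) t)).eval 1 =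
      ∑ ω : Fin t → V, pathProb π P t ω * (labelSum val ω : ℝ) := by
    rw [← genfun h, derivative_sum, eval_finsetSum]
    refine sum_congr rfl fun ω _ => ?_
    simp [derivative_X_pow]
  have h2 : (derivative (derivative (S.U (X : ℝ[X]) t))).eval 1 =
      ∑ ω : Fin t → V, pathProb π P t ω * ((labelSum val ω : ℝ) * ((labelSum val ω : ℝ) - 1)) := by
    rw [← genfun h, derivative_sum, derivative_sum, eval_finsetSum]
    refine sum_congr rfl fun ω _ => ?_
    rcases Nat.eq_zero_or_pos (labelSum val ω) with h0 | h0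
    · rw [h0]; simp
    · have : ((labelSum val ω - 1 : ℕ) : ℝ) = (labelSum val ω : ℝ) - 1 := by
        rw [Nat.cast_sub h0]; simp
      simp [derivative_X_pow, this]
  rw [h1, h2]
  congr 1
  rw [← sum_add_distrib]
  refine sum_congr rfl fun ω _ => ?_
  ring

lemma dTV_eq {V' : Type} [Fintype V'] {S : Sys V} {π : V → ℝ} {P : V → V → ℝ} {val : V → Fin 2}
    (h : Compat S π P val) {S' : Sys V'} {π' : V' → ℝ} {P' : V' → V' → ℝ} {val' : V' → Fin 2}
    (h' : Compat S' π' P' val') (t : ℕ) :
    dTV (sumLaw π P val t) (sumLaw π' P' val' t) = 1 / 2 * N (S.U X t - S'.U X t) := by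
  unfold dTV N
  congr 1
  rw [tsum_eq_sum (s := (S.U (X : ℝ[X]) t - S'.U X t).support)]
  · refine sum_congr rfl fun k _ => ?_
    rw [sumLaw_eq h, sumLaw_eq h', coeff_sub]
  · intro k hk
    rw [sumLaw_eq h, sumLaw_eq h', ← coeff_sub, notMem_support_iff.1 hk, abs_zero]

/-! ### the uniform chain -/

/-- the system of a symmetric doubly stochastic matrix -/
noncomputable def uniSys [Nonempty V] (W : V → V → ℝ) (hs : ∀ v w, W v w = W w v)
    (h1 : ∀ v, ∑ w, W v w = 1) (val : V → Fin 2) : Sys V where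
  E v w := W v w - 1 / Fintype.card V
  e _ := 1 / Real.sqrt (Fintype.card V)
  f v := ((val v : ℕ) : ℝ)
  symm v w := by rw [hs]
  unit := by
    have hn : (0 : ℝ) < Fintype.card V := by exact_mod_cast Fintype.card_pos
    rw [sum_const, card_univ, nsmul_eq_mul, div_mul_div_comm, Real.mul_self_sqrt hn.le]
    field_simp
  ann v := by
    have hn : (0 : ℝ) < Fintype.card V := by exact_mod_cast Fintype.card_pos
    rw [← sum_mul, sum_sub_distrib, h1, sum_const, card_univ, nsmul_eq_mul]
    field_simp
    ring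
  f01 v := by
    have : (val v : ℕ) = 0 ∨ (val v : ℕ) = 1 := by have := (val v).isLt; omega
    rcases this with h | h <;> rw [h] <;> simp

lemma uni_compat [Nonempty V] (W : V → V → ℝ) (hs : ∀ v w, W v w = W w v)
    (h1 : ∀ v, ∑ w, W v w = 1) (val : V → Fin 2) :
    Compat (uniSys W hs h1 val) (fun _ => 1 / Fintype.card V) W val := by
  have hn : (0 : ℝ) < Fintype.card V := by exact_mod_cast Fintype.card_pos
  have hs' : Real.sqrt (Fintype.card V) * Real.sqrt (Fintype.card V) = Fintype.card V :=
    Real.mul_self_sqrt hn.le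
  refine ⟨fun v => rfl, fun v => ?_, fun v w => ?_⟩
  · change 1 / (Fintype.card V : ℝ) = 1 / Real.sqrt (Fintype.card V) * (1 / Real.sqrt (Fintype.card V))
    rw [div_mul_div_comm, hs', one_mul]
  · change 1 / Real.sqrt (Fintype.card V) * W v w =
      (1 / Real.sqrt (Fintype.card V) * (1 / Real.sqrt (Fintype.card V)) +
        (W v w - 1 / Fintype.card V)) * (1 / Real.sqrt (Fintype.card V))
    rw [div_mul_div_comm 1 _ 1 _, hs', one_mul]
    ring

lemma uni_p1 [Nonempty V] (W : V → V → ℝ) (hs : ∀ v w, W v w = W w v)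
    (h1 : ∀ v, ∑ w, W v w = 1) (val : V → Fin 2) {p : Fin 2 → ℝ} (hw : HasWeights val p) :
    (uniSys W hs h1 val).p1 = p 1 := by
  have hn : (0 : ℝ) < Fintype.card V := by exact_mod_cast Fintype.card_pos
  have hs' : Real.sqrt (Fintype.card V) * Real.sqrt (Fintype.card V) = Fintype.card V :=
    Real.mul_self_sqrt hn.le
  change ∑ v, ((val v : ℕ) : ℝ) * (1 / Real.sqrt (Fintype.card V) *
    (1 / Real.sqrt (Fintype.card V))) = p 1
  rw [← sum_mul, div_mul_div_comm, hs', one_mul]
  have h2 : ∑ v, ((val v : ℕ) : ℝ) = ((univ.filter fun v => val v = 1).card : ℝ) := by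
    rw [card_filter]
    push_cast
    refine sum_congr rfl fun v _ => ?_
    have : val v = 0 ∨ val v = 1 := by
      have := (val v).isLt
      rcases (by omega : (val v : ℕ) = 0 ∨ (val v : ℕ) = 1) with h | h
      · left; exact Fin.ext h
      · right; exact Fin.ext h
    rcases this with h | h <;> rw [h] <;> simp
  rw [h2, hw 1]
  field_simp

lemma uni_small [Nonempty V] (W : V → V → ℝ) (hs : ∀ v w, W v w = W w v)
    (h1 : ∀ v, ∑ w, W v w = 1) (val : V → Fin 2) {lam : ℝ} (h0 : 0 ≤ lam)
    (hexp : ∀ (μ : ℝ) (u : V → ℝ), u ≠ 0 → ∑ v, u v = 0 →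
      (∀ v, ∑ w, W v w * u w = μ * u v) → |μ| ≤ lam) :
    (uniSys W hs h1 val).Small lam := by
  classical
  have hn : (0 : ℝ) < Fintype.card V := by exact_mod_cast Fintype.card_pos
  set M : Matrix V V ℝ := Matrix.of fun v w => W v w - 1 / Fintype.card V with hM
  have hH : M.IsHermitian := by
    ext v w
    simp only [hM, Matrix.conjTranspose_apply, Matrix.of_apply, star_trivial]
    rw [hs]
  have hcol : ∀ w, ∑ v, M v w = 0 := by
    intro w
    simp only [hM, Matrix.of_apply]
    rw [sum_sub_distrib, sum_const, card_univ, nsmul_eq_mul]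
    have : ∑ v, W v w = 1 := by
      rw [← h1 w]
      exact sum_congr rfl fun v _ => hs v w
    rw [this]
    field_simp
    ring
  have hev : ∀ i, |hH.eigenvalues i| ≤ lam := by
    intro i
    set u : V → ℝ := (hH.eigenvectorBasis i).ofLp with hu
    have hune : u ≠ 0 := by
      intro h
      have h2 : hH.eigenvectorBasis i = 0 := by
        ext v
        exact congrFun h v
      have h3 := hH.eigenvectorBasis.orthonormal.1 i
      rw [h2, norm_zero] at h3
      exact zero_ne_one h3
    have hMu : ∀ v, ∑ w, M v w * u w = hH.eigenvalues i * u v := by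
      intro v
      have h2 := hH.mulVec_eigenvectorBasis i
      have h3 := congrFun h2 v
      simpa [Matrix.mulVec, dotProduct] using h3
    rcases eq_or_ne (hH.eigenvalues i) 0 with hz | hz
    · rw [hz, abs_zero]; exact h0
    · have hsum : ∑ v, u v = 0 := by
        have h2 : hH.eigenvalues i * ∑ v, u v = 0 := by
          rw [mul_sum]
          simp only [← hMu]
          rw [sum_comm]
          simp only [← sum_mul, hcol, zero_mul, sum_const_zero]
        exact (mul_eq_zero.1 h2).resolve_left hz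
      apply hexp _ u hune hsum
      intro v
      rw [← hMu v]
      simp only [hM, Matrix.of_apply, sub_mul]
      rw [sum_sub_distrib, ← mul_sum, hsum, mul_zero, sub_zero]
  intro u
  have hEr : ∀ v, (uniSys W hs h1 val).Er u v = M.mulVec u v := by
    intro v
    simp only [Sys.Er, uniSys, Matrix.mulVec, dotProduct, hM, Matrix.of_apply]
  set x : EuclideanSpace ℝ V := WithLp.toLp 2 u with hx
  set y : EuclideanSpace ℝ V := WithLp.toLp 2 (M.mulVec u) with hy
  have hnx : ‖x‖ = Sys.rn u := by
    rw [EuclideanSpace.norm_eq]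
    unfold Sys.rn
    congr 1
    refine sum_congr rfl fun v _ => ?_
    rw [Real.norm_eq_abs, sq_abs]
  have hny : ‖y‖ = Sys.rn ((uniSys W hs h1 val).Er u) := by
    rw [EuclideanSpace.norm_eq]
    unfold Sys.rn
    congr 1
    refine sum_congr rfl fun v _ => ?_
    rw [Real.norm_eq_abs, sq_abs, hEr]
  rw [← hnx, ← hny]
  apply le_of_sq_le_sq _ (mul_nonneg h0 (norm_nonneg _))
  have hinner : ∀ i, inner ℝ (hH.eigenvectorBasis i) y =
      hH.eigenvalues i * inner ℝ (hH.eigenvectorBasis i) x := by
    intro i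
    have h2 := hH.mulVec_eigenvectorBasis i
    have e1 : inner ℝ (hH.eigenvectorBasis i) y =
        ∑ v, (hH.eigenvectorBasis i).ofLp v * M.mulVec u v := by
      rw [PiLp.inner_apply]
      refine sum_congr rfl fun v _ => ?_
      simp [hy, mul_comm]
    have e2 : inner ℝ (hH.eigenvectorBasis i) x =
        ∑ v, (hH.eigenvectorBasis i).ofLp v * u v := by
      rw [PiLp.inner_apply]
      refine sum_congr rfl fun v _ => ?_
      simp [hx, mul_comm]
    rw [e1, e2, mul_sum]
    have e3 : ∀ v, hH.eigenvalues i * ((hH.eigenvectorBasis i).ofLp v * u v) =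
        (∑ w, M v w * (hH.eigenvectorBasis i).ofLp w) * u v := by
      intro v
      have h3 := congrFun h2 v
      have h4 : ∑ w, M v w * (hH.eigenvectorBasis i).ofLp w =
          hH.eigenvalues i * (hH.eigenvectorBasis i).ofLp v := by
        simpa [Matrix.mulVec, dotProduct] using h3
      rw [h4]; ring
    simp only [e3]
    simp only [Matrix.mulVec, dotProduct, mul_sum, sum_mul]
    rw [sum_comm]
    refine sum_congr rfl fun v _ => sum_congr rfl fun w _ => ?_
    have h5 : M w v = M v w := by
      simp only [hM, Matrix.of_apply]; rw [hs]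
    rw [h5]; ring
  rw [mul_pow, ← hH.eigenvectorBasis.sum_sq_norm_inner_right y,
    ← hH.eigenvectorBasis.sum_sq_norm_inner_right x, mul_sum]
  refine sum_le_sum fun i _ => ?_
  rw [hinner, norm_mul, mul_pow]
  apply mul_le_mul_of_nonneg_right _ (sq_nonneg _)
  apply pow_le_pow_left₀ (norm_nonneg _)
  rw [Real.norm_eq_abs]
  exact hev i

end Pool.Agent.Work.MP_866acd_pr
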