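import Pool.Agent.Work.MP_866acd_pr.L1

/-!
Comparison of two renewal type power series with polynomial coefficients.
-/

namespace Pool.Agent.Work.MP_866acd_pr

open Polynomial Finset

abbrev PS := PowerSeries ℝ[X]

/-- geometric decay of the coefficients -/
def Geo (φ : PS) (A : ℝ) : Prop := ∀ n, N (PowerSeries.coeff n φ) ≤ A * (1 / 4) ^ n

/-- decay like `1 / sqrt (n + 1)` -/
def Dec (φ : PS) (B : ℝ) : Prop := ∀ n : ℕ, N (PowerSeries.coeff n φ) ≤ B / Real.sqrt (n + 1)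

lemma Geo.nonneg {φ : PS} {A : ℝ} (h : Geo φ A) : 0 ≤ A := by
  have := h 0
  rw [pow_zero, mul_one] at this
  exact (N_nonneg _).trans this

lemma Dec.nonneg {φ : PS} {A : ℝ} (h : Dec φ A) : 0 ≤ A := by
  have := h 0
  norm_num at this
  exact (N_nonneg _).trans this

lemma Geo.mul_Dec {φ ψ : PS} {A B : ℝ} (h : Geo φ A) (h' : Dec ψ B) : Dec (φ * ψ) (2 * A * B) := by
  intro n
  have hA := h.nonneg
  have hB := h'.nonneg
  rw [PowerSeries.coeff_mul]
  refine (N_sum_le _ _).trans ?_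
  have hn : 0 < Real.sqrt ((n : ℝ) + 1) := Real.sqrt_pos.2 (by positivity)
  have hterm : ∀ p ∈ antidiagonal n, N (PowerSeries.coeff p.1 φ * PowerSeries.coeff p.2 ψ) ≤
      A * B / Real.sqrt (n + 1) * (1 / 2) ^ p.1 := by
    rintro ⟨i, j⟩ hij
    rw [HasAntidiagonal.mem_antidiagonal] at hij
    simp only at hij ⊢
    refine (N_mul_le _ _).trans ?_
    have h1 := h i
    have h2 := h' j
    have h3 : 1 / Real.sqrt ((j : ℝ) + 1) ≤ ((i : ℝ) + 1) / Real.sqrt (n + 1) := by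
      have hj : 0 < Real.sqrt ((j : ℝ) + 1) := Real.sqrt_pos.2 (by positivity)
      rw [div_le_div_iff₀ hj hn, one_mul]
      have e1 : ((i : ℝ) + 1) = Real.sqrt (((i : ℝ) + 1) ^ 2) := (Real.sqrt_sq (by positivity)).symm
      rw [e1, ← Real.sqrt_mul (by positivity)]
      apply Real.sqrt_le_sqrt
      have e2 : (n : ℝ) = i + j := by rw [← hij]; push_cast; ring
      rw [e2]
      have hi : (0 : ℝ) ≤ i := by positivity
      have hj : (0 : ℝ) ≤ j := by positivity
      nlinarith [mul_nonneg hi hj, mul_nonneg hi hi, mul_nonneg (mul_nonneg hi hi) hj]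
    have h4 : ((i : ℝ) + 1) * (1 / 4) ^ i ≤ (1 / 2) ^ i := by
      have e3 : (i : ℝ) + 1 ≤ 2 ^ i := by
        have := Nat.lt_two_pow_self (n := i)
        exact_mod_cast this
      calc ((i : ℝ) + 1) * (1 / 4) ^ i ≤ 2 ^ i * (1 / 4) ^ i :=
            mul_le_mul_of_nonneg_right e3 (by positivity)
        _ = (1 / 2) ^ i := by rw [← mul_pow]; norm_num
    calc N (PowerSeries.coeff i φ) * N (PowerSeries.coeff j ψ)
        ≤ (A * (1 / 4) ^ i) * (B / Real.sqrt (j + 1)) :=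
          mul_le_mul h1 h2 (N_nonneg _) (by positivity)
      _ = A * B * (1 / 4) ^ i * (1 / Real.sqrt (j + 1)) := by ring
      _ ≤ A * B * (1 / 4) ^ i * (((i : ℝ) + 1) / Real.sqrt (n + 1)) :=
          mul_le_mul_of_nonneg_left h3 (by positivity)
      _ = A * B / Real.sqrt (n + 1) * (((i : ℝ) + 1) * (1 / 4) ^ i) := by ring
      _ ≤ A * B / Real.sqrt (n + 1) * (1 / 2) ^ i :=
          mul_le_mul_of_nonneg_left h4 (by positivity)
  refine (sum_le_sum hterm).trans ?_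
  rw [← mul_sum]
  have hgeo : ∑ p ∈ antidiagonal n, ((1 : ℝ) / 2) ^ p.1 ≤ 2 := by
    rw [Finset.Nat.sum_antidiagonal_eq_sum_range_succ_mk]
    have : ∀ m : ℕ, ∑ k ∈ range m, ((1 : ℝ) / 2) ^ k ≤ 2 := by
      intro m
      rw [geom_sum_eq (by norm_num)]
      have : (0 : ℝ) ≤ (1 / 2) ^ m := by positivity
      have e : ((1 / 2 : ℝ) ^ m - 1) / (1 / 2 - 1) = 2 - 2 * (1 / 2) ^ m := by
        field_simp; ring
      rw [e]; linarith
    exact this _
  calc A * B / Real.sqrt (n + 1) * ∑ p ∈ antidiagonal n, ((1 : ℝ) / 2) ^ p.1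
      ≤ A * B / Real.sqrt (n + 1) * 2 := mul_le_mul_of_nonneg_left hgeo (by positivity)
    _ = 2 * A * B / Real.sqrt (n + 1) := by ring

lemma Dec.add {φ ψ : PS} {A B : ℝ} (h : Dec φ A) (h' : Dec ψ B) : Dec (φ + ψ) (A + B) := by
  intro n
  rw [map_add, add_div]
  exact (N_add_le _ _).trans (add_le_add (h n) (h' n))

lemma Dec.X_mul {φ : PS} {B : ℝ} (h : Dec φ B) : Dec (PowerSeries.X * φ) (2 * B) := by
  intro n
  have hB := h.nonneg
  cases n with
  | zero =>
    rw [PowerSeries.coeff_zero_X_mul, N_zero]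
    positivity
  | succ n =>
    rw [PowerSeries.coeff_succ_X_mul]
    refine (h n).trans ?_
    have hn : 0 < Real.sqrt ((n : ℝ) + 1) := Real.sqrt_pos.2 (by positivity)
    have hn' : 0 < Real.sqrt (((n + 1 : ℕ) : ℝ) + 1) := Real.sqrt_pos.2 (by positivity)
    rw [div_le_div_iff₀ hn hn']
    have h2 : Real.sqrt (((n + 1 : ℕ) : ℝ) + 1) ≤ 2 * Real.sqrt ((n : ℝ) + 1) := by
      have e1 : (2 : ℝ) = Real.sqrt (2 ^ 2) := (Real.sqrt_sq (by norm_num)).symm
      rw [e1, ← Real.sqrt_mul (by positivity)]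
      apply Real.sqrt_le_sqrt
      push_cast
      have : (0 : ℝ) ≤ n := by positivity
      linarith
    calc B * Real.sqrt (((n + 1 : ℕ) : ℝ) + 1) ≤ B * (2 * Real.sqrt ((n : ℝ) + 1)) :=
          mul_le_mul_of_nonneg_left h2 hB
      _ = 2 * B * Real.sqrt ((n : ℝ) + 1) := by ring

lemma Dec.C_mul {φ : PS} {B : ℝ} (h : Dec φ B) (p : ℝ[X]) :
    Dec (PowerSeries.C p * φ) (N p * B) := by
  intro n
  rw [PowerSeries.coeff_C_mul, mul_div_assoc]
  exact (N_mul_le _ _).trans (mul_le_mul_of_nonneg_left (h n) (N_nonneg _))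

/-- decay of `z^3` times a product -/
lemma dec_prod {U U' : PS} {B B3 : ℝ} (hB : 0 ≤ B) (hB3 : 0 ≤ B3)
    (h0 : ∀ n, N (PowerSeries.coeff n U) ≤ B) (h0' : ∀ n, N (PowerSeries.coeff n U') ≤ B)
    (h3 : ∀ n : ℕ, N (z ^ 3 * PowerSeries.coeff n U) ≤ B3 / ((n + 1) * Real.sqrt (n + 1)))
    (h3' : ∀ n : ℕ, N (z ^ 3 * PowerSeries.coeff n U') ≤ B3 / ((n + 1) * Real.sqrt (n + 1))) :
    Dec (PowerSeries.C (z ^ 3) * (U * U')) (4 * B * B3) := by
  intro n
  rw [PowerSeries.coeff_C_mul, PowerSeries.coeff_mul, mul_sum]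
  refine (N_sum_le _ _).trans ?_
  have hn : 0 < Real.sqrt ((n : ℝ) + 1) := Real.sqrt_pos.2 (by positivity)
  have hn1 : (0 : ℝ) < (n : ℝ) + 1 := by positivity
  have key : ∀ k : ℕ, n ≤ 2 * k →
      B3 / (((k : ℝ) + 1) * Real.sqrt (k + 1)) * B ≤ 4 * B * B3 / ((n + 1) * Real.sqrt (n + 1)) := by
    intro k hk
    have hk' : (n : ℝ) ≤ 2 * k := by exact_mod_cast hk
    have hk0 : 0 < Real.sqrt ((k : ℝ) + 1) := Real.sqrt_pos.2 (by positivity)
    have e1 : Real.sqrt ((n : ℝ) + 1) ≤ 2 * Real.sqrt ((k : ℝ) + 1) := by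
      have e1 : (2 : ℝ) = Real.sqrt (2 ^ 2) := (Real.sqrt_sq (by norm_num)).symm
      rw [e1, ← Real.sqrt_mul (by positivity)]
      apply Real.sqrt_le_sqrt
      have : (0 : ℝ) ≤ k := by positivity
      linarith
    rw [div_mul_eq_mul_div, div_le_div_iff₀ (by positivity) (by positivity)]
    have e2 : ((n : ℝ) + 1) * Real.sqrt (n + 1) ≤ 4 * (((k : ℝ) + 1) * Real.sqrt (k + 1)) := by
      have h5 : (n : ℝ) + 1 ≤ 2 * ((k : ℝ) + 1) := by linarith
      calc ((n : ℝ) + 1) * Real.sqrt (n + 1) ≤ (2 * ((k : ℝ) + 1)) * (2 * Real.sqrt ((k : ℝ) + 1)) :=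
            mul_le_mul h5 e1 hn.le (by positivity)
        _ = _ := by ring
    calc B3 * B * (((n : ℝ) + 1) * Real.sqrt (n + 1))
        ≤ B3 * B * (4 * (((k : ℝ) + 1) * Real.sqrt (k + 1))) :=
          mul_le_mul_of_nonneg_left e2 (by positivity)
      _ = 4 * B * B3 * (((k : ℝ) + 1) * Real.sqrt (k + 1)) := by ring
  have hterm : ∀ p ∈ antidiagonal n,
      N (z ^ 3 * (PowerSeries.coeff p.1 U * PowerSeries.coeff p.2 U')) ≤
      4 * B * B3 / ((n + 1) * Real.sqrt (n + 1)) := by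
    rintro ⟨i, j⟩ hij
    rw [HasAntidiagonal.mem_antidiagonal] at hij
    simp only at hij ⊢
    rcases le_total j i with h | h
    · rw [← mul_assoc]
      refine (N_mul_le _ _).trans ?_
      refine (mul_le_mul (h3 i) (h0' j) (N_nonneg _) (by positivity)).trans ?_
      exact key i (by omega)
    · have e : z ^ 3 * (PowerSeries.coeff i U * PowerSeries.coeff j U') =
          (z ^ 3 * PowerSeries.coeff j U') * PowerSeries.coeff i U := by ring
      rw [e]
      refine (N_mul_le _ _).trans ?_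
      refine (mul_le_mul (h3' j) (h0 i) (N_nonneg _) (by positivity)).trans ?_
      exact key j (by omega)
  refine (sum_le_sum hterm).trans ?_
  rw [sum_const, Finset.Nat.card_antidiagonal, nsmul_eq_mul]
  push_cast
  apply le_of_eq
  field_simp

/-- series with constant coefficients -/
noncomputable def cst (S : ℕ → ℝ) : PS := PowerSeries.mk fun n => Polynomial.C (S n)

/-- the comparison theorem -/
theorem compare {p1 : ℝ} (hp0 : 0 ≤ p1) (hp1 : p1 ≤ 1) {U U' c c' d : PS} {S : ℕ → ℝ}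
    {B B2 B3 L : ℝ} (hB : 0 ≤ B) (hB3 : 0 ≤ B3)
    (hU : U = 1 + PowerSeries.X * PowerSeries.C (1 + C p1 * z) * U +
      PowerSeries.X ^ 2 * PowerSeries.C (z ^ 2) * c * U)
    (hU' : U' = 1 + PowerSeries.X * PowerSeries.C (1 + C p1 * z) * U' +
      PowerSeries.X ^ 2 * PowerSeries.C (z ^ 2) * c' * U')
    (h0 : ∀ n, N (PowerSeries.coeff n U) ≤ B) (h0' : ∀ n, N (PowerSeries.coeff n U') ≤ B)
    (h2' : Dec (PowerSeries.C (z ^ 2) * U') B2)
    (h3 : ∀ n : ℕ, N (z ^ 3 * PowerSeries.coeff n U) ≤ B3 / ((n + 1) * Real.sqrt (n + 1)))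
    (h3' : ∀ n : ℕ, N (z ^ 3 * PowerSeries.coeff n U') ≤ B3 / ((n + 1) * Real.sqrt (n + 1)))
    (hc : Geo c 1)
    (hd : c - c' = (1 - PowerSeries.X) * cst S + PowerSeries.C z * d)
    (hS : ∀ n, |S n| ≤ L * (1 / 4) ^ n) (hdG : Geo d L) :
    Dec (U - U') (4 * (2 * L * B2 + 2 * (2 * L * (4 * B * B3)) +
      4 * (2 * L * (2 * 1 * (2 * (4 * B * B3)))) + 2 * L * (4 * B * B3))) := by
  have hSG : Geo (cst S) L := by
    intro n
    unfold cst
    rw [PowerSeries.coeff_mk, N_C]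
    exact hS n
  have hD3 := dec_prod hB hB3 h0 h0' h3 h3'
  have hz : N z ≤ 2 := N_z
  have hD4 : Dec (PowerSeries.C (z ^ 4) * (U * U')) (2 * (4 * B * B3)) := by
    have h := hD3.C_mul z
    have e : PowerSeries.C z * (PowerSeries.C (z ^ 3) * (U * U')) =
        PowerSeries.C (z ^ 4) * (U * U') := by
      rw [← mul_assoc, ← map_mul]
      congr 2
      ring
    rw [e] at h
    intro n
    refine (h n).trans ?_
    gcongr
  have hD3p : Dec (PowerSeries.C (C p1) * (PowerSeries.C (z ^ 3) * (U * U'))) (4 * B * B3) := by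
    have h := hD3.C_mul (C p1)
    intro n
    refine (h n).trans ?_
    rw [N_C, abs_of_nonneg hp0]
    have h1 : p1 * (4 * B * B3) ≤ 1 * (4 * B * B3) := mul_le_mul_of_nonneg_right hp1 (by positivity)
    rw [one_mul] at h1
    gcongr
  have key : U - U' = PowerSeries.X * (PowerSeries.X *
      (cst S * (PowerSeries.C (z ^ 2) * U') +
        PowerSeries.X * (cst S * (PowerSeries.C (C p1) * (PowerSeries.C (z ^ 3) * (U * U')))) +
        PowerSeries.X * (PowerSeries.X * (cst S * (c * (PowerSeries.C (z ^ 4) * (U * U'))))) +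
        d * (PowerSeries.C (z ^ 3) * (U * U')))) := by
    have e1 : U - U' = PowerSeries.X ^ 2 * PowerSeries.C (z ^ 2) * (c - c') * (U * U') := by
      linear_combination U' * hU - U * hU'
    have e2 : (1 - PowerSeries.X) * U = 1 + PowerSeries.X * PowerSeries.C (C p1 * z) * U +
        PowerSeries.X ^ 2 * PowerSeries.C (z ^ 2) * c * U := by
      have : PowerSeries.C (1 + C p1 * z) = 1 + PowerSeries.C (C p1 * z) := by
        rw [map_add, map_one]
      rw [this] at hU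
      linear_combination hU
    rw [e1, hd]
    have e3 : PowerSeries.C (z ^ 2) = PowerSeries.C z ^ 2 := by rw [map_pow]
    have e4 : PowerSeries.C (z ^ 3) = PowerSeries.C z ^ 3 := by rw [map_pow]
    have e5 : PowerSeries.C (z ^ 4) = PowerSeries.C z ^ 4 := by rw [map_pow]
    have e6 : PowerSeries.C (C p1 * z) = PowerSeries.C (C p1) * PowerSeries.C z := by rw [map_mul]
    rw [e3, e6] at e2
    rw [e3, e4, e5]
    linear_combination PowerSeries.X ^ 2 * PowerSeries.C z ^ 2 * cst S * U' * e2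
  rw [key]
  have a1 := hSG.mul_Dec h2'
  have a2 := (hSG.mul_Dec hD3p).X_mul
  have a3 := ((hSG.mul_Dec (hc.mul_Dec hD4)).X_mul).X_mul
  have a4 := hdG.mul_Dec hD3
  have a5 := ((((a1.add a2).add a3).add a4).X_mul).X_mul
  intro n
  refine (a5 n).trans (le_of_eq ?_)
  ring

end Pool.Agent.Work.MP_866acd_pr
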