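import Pool.Agent.Work.MP_866acd_pr.Poly

/-!
Bounds for the iterates at points of the unit circle.
-/

namespace Pool.Agent.Work.MP_866acd_pr

open Finset

variable {V : Type} [Fintype V] (S : Sys V)

namespace Sys

/-- Euclidean norm of a complex vector -/
noncomputable def cn (u : V → ℂ) : ℝ := ‖(WithLp.toLp 2 u : EuclideanSpace ℂ V)‖

lemma cn_nonneg (u : V → ℂ) : 0 ≤ cn u := norm_nonneg _

lemma cn_sq (u : V → ℂ) : cn u ^ 2 = ∑ v, ‖u v‖ ^ 2 := by
  unfold cn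
  rw [EuclideanSpace.norm_sq_eq]

lemma cn_add_le (a b : V → ℂ) : cn (a + b) ≤ cn a + cn b := by
  unfold cn
  exact norm_add_le (WithLp.toLp 2 a : EuclideanSpace ℂ V) (WithLp.toLp 2 b)

lemma cn_le_of_sq {u : V → ℂ} {c : ℝ} (hc : 0 ≤ c) (h : ∑ v, ‖u v‖ ^ 2 ≤ c ^ 2) : cn u ≤ c := by
  rw [← cn_sq] at h
  exact le_of_sq_le_sq h hc

lemma cn_mul_le (h u : V → ℂ) {c : ℝ} (hc : 0 ≤ c) (hh : ∀ v, ‖h v‖ ≤ c) :
    cn (fun v => h v * u v) ≤ c * cn u := by
  apply cn_le_of_sq (mul_nonneg hc (cn_nonneg u))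
  rw [mul_pow, cn_sq, mul_sum]
  refine sum_le_sum fun v _ => ?_
  rw [norm_mul, mul_pow]
  exact mul_le_mul_of_nonneg_right (pow_le_pow_left₀ (norm_nonneg _) (hh v) 2) (sq_nonneg _)

lemma norm_bil_le (a b : V → ℂ) : ‖bil a b‖ ≤ cn a * cn b := by
  unfold bil
  refine (norm_sum_le _ _).trans ?_
  have h := Finset.sum_mul_sq_le_sq_mul_sq univ (fun v => ‖a v‖) (fun v => ‖b v‖)
  rw [← cn_sq, ← cn_sq, ← mul_pow] at h
  have h2 := le_of_sq_le_sq h (mul_nonneg (cn_nonneg a) (cn_nonneg b))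
  refine le_trans (le_of_eq ?_) h2
  exact sum_congr rfl fun v _ => norm_mul _ _

lemma cn_Eop {lam : ℝ} (h0 : 0 ≤ lam) (hE : S.Small lam) (u : V → ℂ) :
    cn (S.Eop u) ≤ lam * cn u := by
  apply cn_le_of_sq (mul_nonneg h0 (cn_nonneg u))
  have hr : ∀ v, (S.Eop u v).re = S.Er (fun w => (u w).re) v := by
    intro v
    unfold Eop Er
    rw [Complex.re_sum]
    refine sum_congr rfl fun w _ => ?_
    simp
  have hi : ∀ v, (S.Eop u v).im = S.Er (fun w => (u w).im) v := by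
    intro v
    unfold Eop Er
    rw [Complex.im_sum]
    refine sum_congr rfl fun w _ => ?_
    simp
  have hsq : ∀ x : V → ℝ, ∑ v, S.Er x v ^ 2 ≤ lam ^ 2 * ∑ v, x v ^ 2 := by
    intro x
    have h1 := hE x
    have h2 := pow_le_pow_left₀ (rn_nonneg _) h1 2
    rw [mul_pow] at h2
    unfold rn at h2
    rwa [Real.sq_sqrt (by positivity), Real.sq_sqrt (by positivity)] at h2
  have hn : ∀ c : ℂ, ‖c‖ ^ 2 = c.re ^ 2 + c.im ^ 2 := by
    intro c
    rw [Complex.sq_norm, Complex.normSq_apply]; ring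
  rw [mul_pow, cn_sq]
  simp only [hn, hr, hi]
  rw [sum_add_distrib, sum_add_distrib, mul_add]
  exact add_le_add (hsq _) (hsq _)

lemma norm_D {y : ℂ} (hy : ‖y‖ = 1) (v : V) : ‖1 + (y - 1) * algebraMap ℝ ℂ (S.f v)‖ ≤ 1 := by
  have h := S.f01 v
  have : S.f v = 0 ∨ S.f v = 1 := by
    rcases eq_or_ne (S.f v) 0 with h0 | h0
    · exact Or.inl h0
    · right
      exact mul_left_cancel₀ h0 (by rw [h, mul_one])
  rcases this with h | h
  · rw [h]; simp
  · rw [h]; simp [hy]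

lemma cn_Dop {y : ℂ} (hy : ‖y‖ = 1) (u : V → ℂ) : cn (S.Dop y u) ≤ cn u := by
  have := cn_mul_le (fun v => 1 + (y - 1) * algebraMap ℝ ℂ (S.f v)) u zero_le_one (S.norm_D hy)
  rw [one_mul] at this
  exact this

lemma p1_mem : 0 ≤ S.p1 ∧ S.p1 ≤ 1 := by
  have h := S.rn_gr_sq
  have h2 : 0 ≤ S.p1 * (1 - S.p1) := by rw [← h]; positivity
  constructor
  · by_contra hc
    push Not at hc
    nlinarith
  · by_contra hc
    push Not at hc
    nlinarith

lemma kappa_le : rn S.gr ≤ 1 / 2 := by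
  apply le_of_sq_le_sq _ (by norm_num)
  rw [rn_gr_sq]
  nlinarith [sq_nonneg (S.p1 - 1 / 2)]

lemma cn_Gop (u : V → ℂ) : cn (S.Gop u) ≤ cn u := by
  have := cn_mul_le (fun v => algebraMap ℝ ℂ (S.f v) - algebraMap ℝ ℂ S.p1) u zero_le_one (by
    intro v
    obtain ⟨h1, h2⟩ := S.p1_mem
    have h := S.f01 v
    have e : algebraMap ℝ ℂ (S.f v) - algebraMap ℝ ℂ S.p1 = ((S.f v - S.p1 : ℝ) : ℂ) := by simp
    rw [e, Complex.norm_real, Real.norm_eq_abs, abs_le]
    constructor <;> nlinarith [sq_nonneg (S.f v), sq_nonneg (S.f v - 1)])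
  rw [one_mul] at this
  exact this

lemma cn_gv : cn (S.gv ℂ) = rn S.gr := by
  have h : S.gv ℂ = fun v => ((S.gr v : ℝ) : ℂ) := by
    funext v
    unfold gv Gop gr ev
    simp
  have h2 : cn (S.gv ℂ) ^ 2 = rn S.gr ^ 2 := by
    rw [cn_sq, h]
    unfold rn
    rw [Real.sq_sqrt (by positivity)]
    refine sum_congr rfl fun v _ => ?_
    rw [Complex.norm_real, Real.norm_eq_abs, sq_abs]
  exact (pow_left_inj₀ (cn_nonneg _) (rn_nonneg _) two_ne_zero).1 h2

lemma cn_ev : cn (S.ev ℂ) = 1 := by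
  have h2 : cn (S.ev ℂ) ^ 2 = 1 ^ 2 := by
    rw [cn_sq, one_pow, ← S.unit]
    refine sum_congr rfl fun v _ => ?_
    unfold ev
    rw [Complex.coe_algebraMap, Complex.norm_real, Real.norm_eq_abs, sq_abs]
    ring
  exact (pow_left_inj₀ (cn_nonneg _) zero_le_one two_ne_zero).1 h2

lemma norm_mean {y : ℂ} (hy : ‖y‖ = 1) :
    ‖1 + (y - 1) * algebraMap ℝ ℂ S.p1‖ ≤ 1 - (rn S.gr * ‖y - 1‖) ^ 2 / 2 := by
  have hn : ∀ c : ℂ, ‖c‖ ^ 2 = c.re ^ 2 + c.im ^ 2 := by
    intro c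
    rw [Complex.sq_norm, Complex.normSq_apply]; ring
  have h1 : ‖1 + (y - 1) * algebraMap ℝ ℂ S.p1‖ ^ 2 = 1 - (rn S.gr * ‖y - 1‖) ^ 2 := by
    rw [mul_pow, rn_gr_sq, hn, hn]
    have h3 := hn y
    rw [hy] at h3
    simp
    linear_combination (-(S.p1)) * h3
  have hk := S.kappa_le
  have hk0 := rn_nonneg S.gr
  have hy1 : ‖y - 1‖ ≤ 2 := by
    refine (norm_sub_le _ _).trans ?_
    rw [hy, norm_one]; norm_num
  have hs : rn S.gr * ‖y - 1‖ ≤ 1 := by
    nlinarith [norm_nonneg (y - 1)]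
  have hs0 : 0 ≤ rn S.gr * ‖y - 1‖ := mul_nonneg hk0 (norm_nonneg _)
  apply le_of_sq_le_sq _ (by nlinarith)
  rw [h1]
  nlinarith [sq_nonneg ((rn S.gr * ‖y - 1‖) ^ 2)]

lemma s_le {y : ℂ} (hy : ‖y‖ = 1) : rn S.gr * ‖y - 1‖ ≤ 1 := by
  have hk := S.kappa_le
  have hk0 := rn_nonneg S.gr
  have hy1 : ‖y - 1‖ ≤ 2 := by
    refine (norm_sub_le _ _).trans ?_
    rw [hy, norm_one]; norm_num
  nlinarith [norm_nonneg (y - 1)]

/-- contraction factor -/
noncomputable def rho (y : ℂ) : ℝ := 1 - 9 / 20 * (rn S.gr * ‖y - 1‖) ^ 2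

lemma rho_ge {y : ℂ} (hy : ‖y‖ = 1) : 11 / 20 ≤ S.rho y := by
  unfold rho
  have h1 := S.s_le hy
  have h0 : 0 ≤ rn S.gr * ‖y - 1‖ := mul_nonneg (rn_nonneg _) (norm_nonneg _)
  nlinarith

theorem bounds {lam : ℝ} (h0 : 0 ≤ lam) (hl : lam ≤ 1 / 50) (hE : S.Small lam) {y : ℂ}
    (hy : ‖y‖ = 1) (t : ℕ) : ‖S.U y t‖ ≤ S.rho y ^ t ∧
      cn (S.beta y t) ≤ 2 * lam * (rn S.gr * ‖y - 1‖) * S.rho y ^ t := by
  have hρ := S.rho_ge hy
  set s := rn S.gr * ‖y - 1‖ with hs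
  have hs0 : 0 ≤ s := mul_nonneg (rn_nonneg _) (norm_nonneg _)
  have hs1 : s ≤ 1 := S.s_le hy
  have hρdef : S.rho y = 1 - 9 / 20 * s ^ 2 := rfl
  induction t with
  | zero =>
    rw [U_zero]
    constructor
    · simp
    · have : cn (S.beta y 0) = 0 := by
        change cn (0 : V → ℂ) = 0
        have h := cn_sq (0 : V → ℂ)
        simp only [Pi.zero_apply, norm_zero] at h
        simpa using h
      rw [this]
      positivity
  | succ t ih =>
    obtain ⟨i1, i2⟩ := ih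
    have hρt : 0 ≤ S.rho y ^ t := by positivity
    constructor
    · rw [U_rec]
      refine (norm_add_le _ _).trans ?_
      rw [norm_mul, norm_mul]
      have e1 := mul_le_mul (S.norm_mean hy) i1 (norm_nonneg _) (by nlinarith)
      have e2 : ‖y - 1‖ * ‖bil (S.gv ℂ) (S.beta y t)‖ ≤ s * (2 * lam * s * S.rho y ^ t) := by
        have e3 := norm_bil_le (S.gv ℂ) (S.beta y t)
        rw [cn_gv] at e3
        calc ‖y - 1‖ * ‖bil (S.gv ℂ) (S.beta y t)‖
            ≤ ‖y - 1‖ * (rn S.gr * cn (S.beta y t)) :=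
              mul_le_mul_of_nonneg_left e3 (norm_nonneg _)
          _ = s * cn (S.beta y t) := by rw [hs]; ring
          _ ≤ _ := mul_le_mul_of_nonneg_left i2 hs0
      have e4 : (1 - s ^ 2 / 2) * S.rho y ^ t + s * (2 * lam * s * S.rho y ^ t) ≤
          S.rho y ^ (t + 1) := by
        have h7 : S.rho y ^ (t + 1) = S.rho y ^ t * S.rho y := pow_succ _ _
        have h5 : (1 - s ^ 2 / 2 + 2 * lam * s ^ 2) ≤ S.rho y := by
          rw [hρdef]
          nlinarith [mul_nonneg hs0 hs0]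
        have h6 := mul_le_mul_of_nonneg_left h5 hρt
        rw [h7]
        linarith
      linarith
    · rw [beta_rec]
      refine (cn_add_le _ _).trans ?_
      have e1 : cn (fun v => (S.U y t * (y - 1)) * S.Eop (S.gv ℂ) v) ≤
          S.rho y ^ t * (lam * s) := by
        refine (cn_mul_le _ _ (norm_nonneg (S.U y t * (y - 1))) (fun _ => le_rfl)).trans ?_
        rw [norm_mul]
        have e3 := S.cn_Eop h0 hE (S.gv ℂ)
        rw [cn_gv] at e3
        calc ‖S.U y t‖ * ‖y - 1‖ * cn (S.Eop (S.gv ℂ))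
            ≤ ‖S.U y t‖ * ‖y - 1‖ * (lam * rn S.gr) :=
              mul_le_mul_of_nonneg_left e3 (by positivity)
          _ = ‖S.U y t‖ * (lam * s) := by rw [hs]; ring
          _ ≤ _ := mul_le_mul_of_nonneg_right i1 (mul_nonneg h0 hs0)
      have e2 : cn (S.Eop (S.Dop y (S.beta y t))) ≤ lam * (2 * lam * s * S.rho y ^ t) := by
        refine (S.cn_Eop h0 hE _).trans ?_
        exact mul_le_mul_of_nonneg_left ((S.cn_Dop hy _).trans i2) h0
      have e5 : S.rho y ^ t * (lam * s) + lam * (2 * lam * s * S.rho y ^ t) ≤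
          2 * lam * s * S.rho y ^ (t + 1) := by
        rw [pow_succ]
        have h6 : lam * s * S.rho y ^ t * (1 + 2 * lam) ≤
            lam * s * S.rho y ^ t * (2 * S.rho y) := by
          apply mul_le_mul_of_nonneg_left _ (by positivity)
          linarith
        linarith
      linarith

theorem dbound {lam : ℝ} (h0 : 0 ≤ lam) (hl : lam ≤ 1 / 50) (hE : S.Small lam) {y : ℂ}
    (hy : ‖y‖ = 1) (t : ℕ) : ‖bil (S.ev ℂ) (S.dvec y (t + 1))‖ ≤
      (t + 1) * (rn S.gr * ‖y - 1‖) * S.rho y ^ t := by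
  have hρ := S.rho_ge hy
  have hk := S.kappa_le
  have hk0 := rn_nonneg S.gr
  set s := rn S.gr * ‖y - 1‖ with hs
  have hs0 : 0 ≤ s := mul_nonneg (rn_nonneg _) (norm_nonneg _)
  have hs1 : s ≤ 1 := S.s_le hy
  rw [bil_ev_dvec]
  refine (norm_sum_le _ _).trans ?_
  have hterm : ∀ r ∈ range (t + 1), ‖bil (S.Dop y (S.vec y (t - r))) (S.Gop (S.vec y r))‖ ≤
      s * S.rho y ^ t := by
    intro r hr
    have hr' : r ≤ t := by rw [mem_range] at hr; omega
    obtain ⟨a1, a2⟩ := S.bounds h0 hl hE hy (t - r)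
    obtain ⟨b1, b2⟩ := S.bounds h0 hl hE hy r
    rw [← hs] at a2 b2
    have hpow : S.rho y ^ (t - r) * S.rho y ^ r = S.rho y ^ t := by
      rw [← pow_add]; congr 1; omega
    have hA : 0 ≤ S.rho y ^ (t - r) := by positivity
    have hB : 0 ≤ S.rho y ^ r := by positivity
    set A := S.rho y ^ (t - r)
    set B := S.rho y ^ r
    have hdec : bil (S.Dop y (S.vec y (t - r))) (S.Gop (S.vec y r)) =
        S.U y (t - r) * S.U y r * bil (S.Dop y (S.ev ℂ)) (S.gv ℂ) +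
        S.U y (t - r) * bil (S.Dop y (S.ev ℂ)) (S.Gop (S.beta y r)) +
        S.U y r * bil (S.Dop y (S.beta y (t - r))) (S.gv ℂ) +
        bil (S.Dop y (S.beta y (t - r))) (S.Gop (S.beta y r)) := by
      have hG : ∀ c : ℂ, S.Gop (fun v => c * S.ev ℂ v) = fun v => c * S.gv ℂ v := by
        intro c
        funext v
        simp only [Gop, gv]
        ring
      rw [S.vec_eq y (t - r), S.vec_eq y r, Dop_add, Gop_add, Dop_smul, hG,
        bil_add_left, bil_add_right, bil_add_right, bil_smul_left, bil_smul_left,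
        bil_smul_right, bil_smul_right]
      ring
    have hDg : bil (S.Dop y (S.ev ℂ)) (S.gv ℂ) = (y - 1) * algebraMap ℝ ℂ (S.p1 * (1 - S.p1)) := by
      rw [Dop_ev, bil_add_left, bil_smul_left, bil_smul_left, bil_ev_gv, gv_sq]
      ring
    have c1 : ‖bil (S.Dop y (S.ev ℂ)) (S.gv ℂ)‖ ≤ s * (1 / 2) := by
      rw [hDg, norm_mul, ← rn_gr_sq, Complex.coe_algebraMap, Complex.norm_real,
        Real.norm_of_nonneg (by positivity)]
      calc ‖y - 1‖ * rn S.gr ^ 2 = s * rn S.gr := by rw [hs]; ring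
        _ ≤ s * (1 / 2) := mul_le_mul_of_nonneg_left hk hs0
    have c2 : ‖bil (S.Dop y (S.ev ℂ)) (S.Gop (S.beta y r))‖ ≤ 2 * lam * s * B := by
      refine (norm_bil_le _ _).trans ?_
      have d1 : cn (S.Dop y (S.ev ℂ)) ≤ 1 := (S.cn_Dop hy _).trans (le_of_eq S.cn_ev)
      have d2 := (S.cn_Gop (S.beta y r)).trans b2
      calc cn (S.Dop y (S.ev ℂ)) * cn (S.Gop (S.beta y r)) ≤ 1 * (2 * lam * s * B) :=
            mul_le_mul d1 d2 (cn_nonneg _) zero_le_one
        _ = _ := one_mul _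
    have c3 : ‖bil (S.Dop y (S.beta y (t - r))) (S.gv ℂ)‖ ≤ 2 * lam * s * A * (1 / 2) := by
      refine (norm_bil_le _ _).trans ?_
      have d1 := (S.cn_Dop hy (S.beta y (t - r))).trans a2
      rw [cn_gv]
      exact mul_le_mul d1 hk hk0 (by positivity)
    have c4 : ‖bil (S.Dop y (S.beta y (t - r))) (S.Gop (S.beta y r))‖ ≤
        (2 * lam * s * A) * (2 * lam * s * B) := by
      refine (norm_bil_le _ _).trans ?_
      have d1 := (S.cn_Dop hy (S.beta y (t - r))).trans a2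
      have d2 := (S.cn_Gop (S.beta y r)).trans b2
      exact mul_le_mul d1 d2 (cn_nonneg _) (by positivity)
    rw [hdec]
    have f1 : ‖S.U y (t - r) * S.U y r * bil (S.Dop y (S.ev ℂ)) (S.gv ℂ)‖ ≤ A * B * (s * (1 / 2)) := by
      rw [norm_mul, norm_mul]
      exact mul_le_mul (mul_le_mul a1 b1 (norm_nonneg _) hA) c1 (norm_nonneg _) (by positivity)
    have f2 : ‖S.U y (t - r) * bil (S.Dop y (S.ev ℂ)) (S.Gop (S.beta y r))‖ ≤
        A * (2 * lam * s * B) := by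
      rw [norm_mul]
      exact mul_le_mul a1 c2 (norm_nonneg _) hA
    have f3 : ‖S.U y r * bil (S.Dop y (S.beta y (t - r))) (S.gv ℂ)‖ ≤
        B * (2 * lam * s * A * (1 / 2)) := by
      rw [norm_mul]
      exact mul_le_mul b1 c3 (norm_nonneg _) hB
    refine (norm_add_le _ _).trans ?_
    have g1 := norm_add_le (S.U y (t - r) * S.U y r * bil (S.Dop y (S.ev ℂ)) (S.gv ℂ) +
        S.U y (t - r) * bil (S.Dop y (S.ev ℂ)) (S.Gop (S.beta y r)))
        (S.U y r * bil (S.Dop y (S.beta y (t - r))) (S.gv ℂ))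
    have g2 := norm_add_le (S.U y (t - r) * S.U y r * bil (S.Dop y (S.ev ℂ)) (S.gv ℂ))
        (S.U y (t - r) * bil (S.Dop y (S.ev ℂ)) (S.Gop (S.beta y r)))
    rw [← hpow]
    have hAB : 0 ≤ A * B * s := by positivity
    have h9 : A * B * (s * (1 / 2)) + A * (2 * lam * s * B) + B * (2 * lam * s * A * (1 / 2)) +
        (2 * lam * s * A) * (2 * lam * s * B) = A * B * s * (1 / 2 + 3 * lam + 4 * lam ^ 2 * s) := by
      ring
    have h10 : 1 / 2 + 3 * lam + 4 * lam ^ 2 * s ≤ 1 := by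
      have : lam ^ 2 ≤ 1 / 2500 := by nlinarith
      nlinarith [mul_nonneg (sq_nonneg lam) hs0]
    have h11 := mul_le_mul_of_nonneg_left h10 hAB
    have h12 : s * (A * B) = A * B * s * 1 := by ring
    rw [h12]
    linarith
  refine (sum_le_sum hterm).trans (le_of_eq ?_)
  rw [sum_const, card_range, nsmul_eq_mul]
  push_cast
  ring

end Sys

end Pool.Agent.Work.MP_866acd_pr
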