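import Mathlib

/-!
Definitions for the statement: regular multigraphs, spectral expansion, the law of the label sum
of a finite Markov chain, total variation distance, asymptotic variance, sticky kernel.
-/

namespace Pool.Agent.Work.MP_866acd_pr

open Finset Filter Topology

/-- A finite regular graph, loops and multiple edges allowed: `mult v w` is the number of edges
joining `v` and `w`, and every vertex has degree `deg > 0`. -/
structure RegGraph (V : Type) [Fintype V] where
  mult : V → V → ℕ
  symm : ∀ v w, mult v w = mult w v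
  deg : ℕ
  deg_pos : 0 < deg
  regular : ∀ v, ∑ w, mult v w = deg

/-- The normalised random walk matrix. -/
noncomputable def RegGraph.W {V : Type} [Fintype V] (G : RegGraph V) (v w : V) : ℝ :=
  (G.mult v w : ℝ) / G.deg

/-- `G` is a `lam`-spectral expander: every eigenvalue of `W` that has an eigenvector orthogonal to
the constants (that is, every eigenvalue, counted with multiplicity, other than the trivial
eigenvalue `1` of the constants) has absolute value at most `lam`. -/
def RegGraph.IsExpander {V : Type} [Fintype V] (G : RegGraph V) (lam : ℝ) : Prop :=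
  ∀ (μ : ℝ) (u : V → ℝ), u ≠ 0 → ∑ v, u v = 0 → (∀ v, ∑ w, G.W v w * u w = μ * u v) → |μ| ≤ lam

/-- The labeling `val` has weights `p`. -/
def HasWeights {V : Type} [Fintype V] (val : V → Fin 2) (p : Fin 2 → ℝ) : Prop :=
  ∀ b, ((univ.filter fun v => val v = b).card : ℝ) = p b * Fintype.card V

/-- Probability of the path `ω` of `t` states for the chain with initial law `π` and kernel `P`. -/
noncomputable def pathProb {V : Type} (π : V → ℝ) (P : V → V → ℝ) : (t : ℕ) → (Fin t → V) → ℝ
  | 0, _ => 1
  | t + 1, ω => π (ω 0) * ∏ i : Fin t, P (ω i.castSucc) (ω i.succ)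

/-- The sum of the labels along a path. -/
def labelSum {V : Type} (val : V → Fin 2) {t : ℕ} (ω : Fin t → V) : ℕ := ∑ i, (val (ω i) : ℕ)

/-- The law of the sum `S_t` of the labels of the first `t` states: the probability of `S_t = k`. -/
noncomputable def sumLaw {V : Type} [Fintype V] (π : V → ℝ) (P : V → V → ℝ) (val : V → Fin 2)
    (t k : ℕ) : ℝ :=
  ∑ ω : Fin t → V, if labelSum val ω = k then pathProb π P t ω else 0

/-- The variance of `S_t`. -/
noncomputable def sumVar {V : Type} [Fintype V] (π : V → ℝ) (P : V → V → ℝ) (val : V → Fin 2)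
    (t : ℕ) : ℝ :=
  ∑ ω : Fin t → V, pathProb π P t ω * (labelSum val ω : ℝ) ^ 2 -
    (∑ ω : Fin t → V, pathProb π P t ω * (labelSum val ω : ℝ)) ^ 2

/-- `σ2` is the asymptotic variance `lim Var(S_t) / t`. -/
def IsAsympVar {V : Type} [Fintype V] (π : V → ℝ) (P : V → V → ℝ) (val : V → Fin 2)
    (σ2 : ℝ) : Prop :=
  Tendsto (fun t : ℕ => sumVar π P val t / t) atTop (𝓝 σ2)

/-- Total variation distance of two laws on the natural numbers. -/
noncomputable def dTV (μ ν : ℕ → ℝ) : ℝ := 1 / 2 * ∑' k, |μ k - ν k|

/-- The kernel of the sticky walk `G_{ν,p}`. -/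
noncomputable def sticky (ν : ℝ) (p : Fin 2 → ℝ) (b b' : Fin 2) : ℝ :=
  (1 - ν) * p b' + if b = b' then ν else 0

end Pool.Agent.Work.MP_866acd_pr
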