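import Pool.Agent.Work.MP_866acd_pr.Chain

/-!
The sticky chain and the final comparison.
-/

namespace Pool.Agent.Work.MP_866acd_pr

open Polynomial Finset Filter Topology

/-- the system of the sticky chain -/
noncomputable def stSys (ν : ℝ) (p : Fin 2 → ℝ) (h0 : 0 < p 0) (h1 : 0 < p 1)
    (hp : p 0 + p 1 = 1) : Sys (Fin 2) where
  E b b' := ν * ((if b = b' then 1 else 0) - Real.sqrt (p b) * Real.sqrt (p b'))
  e b := Real.sqrt (p b)
  f b := ((b : ℕ) : ℝ)
  symm b b' := by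
    have : (if b = b' then (1 : ℝ) else 0) = if b' = b then 1 else 0 := by
      simp only [eq_comm]
    rw [this]; ring
  unit := by
    rw [Fin.sum_univ_two, Real.mul_self_sqrt h0.le, Real.mul_self_sqrt h1.le, hp]
  ann b := by
    rw [Fin.sum_univ_two]
    have a0 := Real.mul_self_sqrt h0.le
    have a1 := Real.mul_self_sqrt h1.le
    fin_cases b
    · simp
      linear_combination (-(ν * Real.sqrt (p 0))) * a0 + (-(ν * Real.sqrt (p 0))) * a1 -
        ν * Real.sqrt (p 0) * hp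
    · simp
      linear_combination (-(ν * Real.sqrt (p 1))) * a0 + (-(ν * Real.sqrt (p 1))) * a1 -
        ν * Real.sqrt (p 1) * hp
  f01 b := by fin_cases b <;> simp

variable {ν : ℝ} {p : Fin 2 → ℝ} (h0 : 0 < p 0) (h1 : 0 < p 1) (hp : p 0 + p 1 = 1)

lemma st_compat : Compat (stSys ν p h0 h1 hp) p (sticky ν p) id := by
  have a : ∀ b, Real.sqrt (p b) * Real.sqrt (p b) = p b := by
    intro b
    fin_cases b
    · exact Real.mul_self_sqrt h0.le
    · exact Real.mul_self_sqrt h1.le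
  refine ⟨fun v => rfl, fun v => (a v).symm, fun v w => ?_⟩
  change Real.sqrt (p v) * sticky ν p v w = (Real.sqrt (p v) * Real.sqrt (p w) +
    ν * ((if v = w then 1 else 0) - Real.sqrt (p v) * Real.sqrt (p w))) * Real.sqrt (p w)
  unfold sticky
  by_cases hvw : v = w
  · subst hvw
    simp only [if_true]
    linear_combination (-(1 - ν) * Real.sqrt (p v)) * a v
  · simp only [if_neg hvw]
    linear_combination (-(1 - ν) * Real.sqrt (p v)) * a w

lemma st_p1 : (stSys ν p h0 h1 hp).p1 = p 1 := by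
  change ∑ b : Fin 2, ((b : ℕ) : ℝ) * (Real.sqrt (p b) * Real.sqrt (p b)) = p 1
  rw [Fin.sum_univ_two, Real.mul_self_sqrt h1.le]
  simp

lemma st_Er (u : Fin 2 → ℝ) (b : Fin 2) : (stSys ν p h0 h1 hp).Er u b =
    ν * (u b - Real.sqrt (p b) * ∑ w, Real.sqrt (p w) * u w) := by
  change ∑ w, ν * ((if b = w then 1 else 0) - Real.sqrt (p b) * Real.sqrt (p w)) * u w = _
  rw [Fin.sum_univ_two, Fin.sum_univ_two]
  fin_cases b <;> simp <;> ring

lemma st_small : (stSys ν p h0 h1 hp).Small |ν| := by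
  intro u
  unfold Sys.rn
  rw [← Real.sqrt_sq_eq_abs, ← Real.sqrt_mul (sq_nonneg _)]
  apply Real.sqrt_le_sqrt
  simp only [st_Er]
  set c := ∑ w, Real.sqrt (p w) * u w with hc
  have e : ∑ b, (ν * (u b - Real.sqrt (p b) * c)) ^ 2 = ν ^ 2 * (∑ b, u b ^ 2 - c ^ 2) := by
    have a0 := Real.mul_self_sqrt h0.le
    have a1 := Real.mul_self_sqrt h1.le
    rw [Fin.sum_univ_two, Fin.sum_univ_two]
    have hc' : c = Real.sqrt (p 0) * u 0 + Real.sqrt (p 1) * u 1 := by
      rw [hc, Fin.sum_univ_two]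
    have h3 : Real.sqrt (p 0) ^ 2 + Real.sqrt (p 1) ^ 2 = 1 := by
      rw [sq, sq, a0, a1, hp]
    have h4 : c ^ 2 * (Real.sqrt (p 0) ^ 2 + Real.sqrt (p 1) ^ 2) = c ^ 2 := by
      rw [h3, mul_one]
    have h5 : c * (Real.sqrt (p 0) * u 0 + Real.sqrt (p 1) * u 1) = c ^ 2 := by
      rw [← hc']; ring
    linear_combination ν ^ 2 * h4 - 2 * ν ^ 2 * h5
  rw [e]
  apply mul_le_mul_of_nonneg_left _ (sq_nonneg _)
  linarith [sq_nonneg c]

lemma st_cc (k : ℕ) : (stSys ν p h0 h1 hp).cc (1 : ℝ) k = p 1 * (1 - p 1) * ν ^ (k + 1) := by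
  set S := stSys ν p h0 h1 hp with hS
  have hE : ∀ u : Fin 2 → ℝ, S.Eop u = S.Er u := fun u => rfl
  have hD : ∀ u : Fin 2 → ℝ, S.Dop (1 : ℝ) u = u := by
    intro u
    funext v
    simp [Sys.Dop]
  have hg : S.Er (S.gv ℝ) = fun v => ν * S.gv ℝ v := by
    funext b
    rw [hS, st_Er]
    have h3 := (stSys ν p h0 h1 hp).bil_ev_gv (R := ℝ)
    have h4 : ∑ w, Real.sqrt (p w) * (stSys ν p h0 h1 hp).gv ℝ w = 0 := h3
    rw [h4, mul_zero, sub_zero]
  have hv : ∀ k, S.cvec (1 : ℝ) k = fun v => ν ^ (k + 1) * S.gv ℝ v := by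
    intro k
    induction k with
    | zero =>
      change S.Eop (S.gv ℝ) = _
      rw [hE, hg]
      funext v
      ring
    | succ k ih =>
      change S.Eop (S.Dop (1 : ℝ) (S.cvec (1 : ℝ) k)) = _
      rw [hD, ih, S.Eop_smul, hE, hg]
      funext v
      ring
  unfold Sys.cc
  rw [hv, Sys.bil_smul_right, S.gv_sq, hS, st_p1]
  simp only [Algebra.algebraMap_self, RingHom.id_apply]
  ring

/-- The Berry-Esseen type bound for symmetric stochastic kernels. -/
theorem final (p : Fin 2 → ℝ) (h0 : 0 < p 0) (h1 : 0 < p 1) (hp : p 0 + p 1 = 1) :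
    ∃ C : ℝ, 0 ≤ C ∧ ∀ (V : Type) [Fintype V] [Nonempty V] (W : V → V → ℝ),
      (∀ v w, W v w = W w v) → (∀ v, ∑ w, W v w = 1) →
      ∀ lam : ℝ, 0 ≤ lam → lam ≤ 1 / 100 →
      (∀ (μ : ℝ) (u : V → ℝ), u ≠ 0 → ∑ v, u v = 0 →
        (∀ v, ∑ w, W v w * u w = μ * u v) → |μ| ≤ lam) →
      ∀ val : V → Fin 2, HasWeights val p →
      ∀ σ2 : ℝ, IsAsympVar (fun _ => 1 / (Fintype.card V : ℝ)) W val σ2 →
      |(σ2 - p 0 * p 1) / (σ2 + p 0 * p 1)| ≤ 2 * lam ∧
      ∀ t : ℕ, dTV (sumLaw (fun _ => 1 / (Fintype.card V : ℝ)) W val t)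
          (sumLaw p (sticky ((σ2 - p 0 * p 1) / (σ2 + p 0 * p 1)) p) id t) ≤
        C * lam / Real.sqrt ((t : ℝ) + 1) := by
  have hp0 : p 0 = 1 - p 1 := by linarith
  obtain ⟨C, hC, H⟩ := Sys.compare_systems h1 (show p 1 < 1 by linarith)
  refine ⟨C, hC, ?_⟩
  intro V _ _ W hs hW lam hl0 hl hexp val hval σ2 hσ
  set S := uniSys W hs hW val with hS
  have hcomp : Compat S (fun _ => 1 / (Fintype.card V : ℝ)) W val := uni_compat W hs hW val
  have hSp : S.p1 = p 1 := uni_p1 W hs hW val hval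
  have hsmall : S.Small lam := uni_small W hs hW val hl0 hexp
  have hlim := S.var_tendsto hl0 (by linarith) hsmall
  have hσ' : Tendsto (fun t : ℕ => S.var t / t) atTop (𝓝 σ2) := by
    refine hσ.congr fun t => ?_
    rw [sumVar_eq hcomp]
  have hσ2 : σ2 = S.p1 * (1 - S.p1) + 2 * ∑' k, S.cc (1 : ℝ) k :=
    tendsto_nhds_unique hσ' hlim
  set q := ∑' k, S.cc (1 : ℝ) k with hq
  have hqb := S.tsum_bound hl0 (by linarith) hsmall 0
  simp only [add_zero, pow_zero, mul_one] at hqb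
  rw [← hq, hSp] at hqb
  set K := p 1 * (1 - p 1) with hK
  have hKpos : 0 < K := mul_pos h1 (by linarith)
  rw [hSp, ← hK] at hσ2
  have hKp : p 0 * p 1 = K := by rw [hp0, hK]; ring
  obtain ⟨q1, q2⟩ := abs_le.1 hqb
  have hKl : K * lam * (4 / 3) ≤ K * (1 / 50) := by
    have : K * lam * (4 / 3) = K * (lam * (4 / 3)) := by ring
    rw [this]
    apply mul_le_mul_of_nonneg_left _ hKpos.le
    linarith
  have hKq : 0 < K + q := by linarith
  set ν := (σ2 - p 0 * p 1) / (σ2 + p 0 * p 1) with hν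
  have hνq : ν = q / (K + q) := by
    rw [hν, hKp, hσ2]
    have : K + 2 * q + K = 2 * (K + q) := by ring
    rw [this]
    have e : K + 2 * q - K = 2 * q := by ring
    rw [e]
    field_simp
  have hνb : |ν| ≤ 2 * lam := by
    rw [hνq, abs_div, abs_of_pos hKq, div_le_iff₀ hKq]
    have h3 : 2 * lam * (K * (49 / 50)) ≤ 2 * lam * (K + q) :=
      mul_le_mul_of_nonneg_left (by linarith) (by linarith)
    have h4 : K * lam * (4 / 3) ≤ 2 * lam * (K * (49 / 50)) := by
      have : 0 ≤ K * lam := mul_nonneg hKpos.le hl0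
      linarith
    linarith
  refine ⟨hνb, ?_⟩
  intro t
  set S' := stSys ν p h0 h1 hp with hS'
  have hcomp' : Compat S' p (sticky ν p) id := st_compat h0 h1 hp
  have hsmall' : S'.Small |ν| := st_small h0 h1 hp
  have hν1 : |ν| < 1 := by linarith
  have hsum' : ∑' k, S'.cc (1 : ℝ) k = q := by
    have e : ∀ k, S'.cc (1 : ℝ) k = K * ν * ν ^ k := by
      intro k
      rw [hS', st_cc, hK]; ring
    simp only [e]
    rw [tsum_mul_left, tsum_geometric_of_abs_lt_one hν1, hνq]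
    have : 1 - q / (K + q) = K / (K + q) := by field_simp; ring
    rw [this]
    field_simp
  rw [dTV_eq hcomp hcomp']
  have hmain := H V (Fin 2) S S' hSp (st_p1 h0 h1 hp) lam |ν| hl0 (by linarith) (abs_nonneg _)
    (by linarith) hνb hsmall hsmall' (by rw [hsum']) t
  have hN := N_nonneg (S.U X t - S'.U X t)
  linarith

end Pool.Agent.Work.MP_866acd_pr
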