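import Pool.Agent.Work.MP_866acd_pr.L1

/-!
From pointwise bounds on the circle to `l1` bounds on coefficients.
-/

namespace Pool.Agent.Work.MP_866acd_pr

open Polynomial Finset MeasureTheory

lemma weight_term {t : ℝ} (ht : 1 ≤ t) (x : ℝ) :
    t / (t + x ^ 2) ≤ 2 * Real.sqrt t *
      (Real.arctan ((x + 1 / 2) / Real.sqrt t) - Real.arctan ((x - 1 / 2) / Real.sqrt t)) := by
  have ht0 : 0 < t := by linarith
  have hs : 0 < Real.sqrt t := Real.sqrt_pos.2 ht0
  have hss : Real.sqrt t * Real.sqrt t = t := Real.mul_self_sqrt ht0.le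
  have hlt : (x - 1 / 2) / Real.sqrt t < (x + 1 / 2) / Real.sqrt t := by
    apply div_lt_div_of_pos_right _ hs
    linarith
  obtain ⟨ξ, ⟨h1, h2⟩, h3⟩ := exists_hasDerivAt_eq_slope Real.arctan
    (fun y => 1 / (1 + y ^ 2)) hlt Real.continuous_arctan.continuousOn
    (fun y _ => Real.hasDerivAt_arctan y)
  have hd : (x + 1 / 2) / Real.sqrt t - (x - 1 / 2) / Real.sqrt t = 1 / Real.sqrt t := by
    rw [← sub_div]; congr 1; ring
  rw [hd, eq_div_iff (by positivity)] at h3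
  rw [← h3]
  have hξ : t * ξ ^ 2 ≤ 2 * x ^ 2 + 1 / 2 := by
    rw [div_lt_iff₀ hs] at h1
    rw [lt_div_iff₀ hs] at h2
    have e : t * ξ ^ 2 = (ξ * Real.sqrt t) ^ 2 := by rw [mul_pow, sq (Real.sqrt t), hss]; ring
    rw [e]
    have hx := abs_le.2 ⟨(by linarith [neg_abs_le x] : -(|x| + 1 / 2) ≤ ξ * Real.sqrt t),
      (by linarith [le_abs_self x] : ξ * Real.sqrt t ≤ |x| + 1 / 2)⟩
    have h5 : (ξ * Real.sqrt t) ^ 2 ≤ (|x| + 1 / 2) ^ 2 := by
      rw [← sq_abs (ξ * Real.sqrt t)]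
      exact pow_le_pow_left₀ (abs_nonneg _) hx 2
    nlinarith [sq_abs x, sq_nonneg (|x| - 1 / 2)]
  have e2 : 2 * Real.sqrt t * (1 / (1 + ξ ^ 2) * (1 / Real.sqrt t)) = 2 / (1 + ξ ^ 2) := by
    field_simp
  rw [e2, div_le_div_iff₀ (by positivity) (by positivity)]
  nlinarith [sq_nonneg x, sq_nonneg ξ]

lemma weight_sum {t : ℝ} (ht : 1 ≤ t) (a : ℝ) (M : ℕ) :
    ∑ n ∈ range M, t / (t + ((n : ℝ) - a) ^ 2) ≤ 2 * Real.pi * Real.sqrt t := by
  have hs : 0 < Real.sqrt t := Real.sqrt_pos.2 (by linarith)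
  set F : ℕ → ℝ := fun n => Real.arctan (((n : ℝ) - a - 1 / 2) / Real.sqrt t) with hF
  have h1 : ∀ n ∈ range M, t / (t + ((n : ℝ) - a) ^ 2) ≤
      2 * Real.sqrt t * (F (n + 1) - F n) := by
    intro n _
    have := weight_term ht ((n : ℝ) - a)
    have e : (((n + 1 : ℕ) : ℝ) - a - 1 / 2) = (n : ℝ) - a + 1 / 2 := by push_cast; ring
    simp only [hF, e]
    exact this
  refine (sum_le_sum h1).trans ?_
  rw [← mul_sum, sum_range_sub]
  have h2 : F M - F 0 ≤ Real.pi := by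
    have a1 := Real.arctan_lt_pi_div_two (((M : ℝ) - a - 1 / 2) / Real.sqrt t)
    have a2 := Real.neg_pi_div_two_lt_arctan ((((0 : ℕ) : ℝ) - a - 1 / 2) / Real.sqrt t)
    simp only [hF]
    linarith
  calc 2 * Real.sqrt t * (F M - F 0) ≤ 2 * Real.sqrt t * Real.pi :=
        mul_le_mul_of_nonneg_left h2 (by positivity)
    _ = _ := by ring

/-- weighted Cauchy-Schwarz -/
lemma N_sq_le (P : ℝ[X]) {t : ℝ} (ht : 1 ≤ t) (a : ℝ) :
    N P ^ 2 ≤ 2 * Real.pi * Real.sqrt t * (∑ n ∈ P.support, P.coeff n ^ 2 +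
      (∑ n ∈ P.support, (((n : ℝ) - a) * P.coeff n) ^ 2) / t) := by
  have ht0 : 0 < t := by linarith
  have hCS := Finset.sum_mul_sq_le_sq_mul_sq P.support
    (fun n => Real.sqrt (t / (t + ((n : ℝ) - a) ^ 2)))
    (fun n => Real.sqrt ((t + ((n : ℝ) - a) ^ 2) / t) * |P.coeff n|)
  have e1 : ∑ n ∈ P.support, Real.sqrt (t / (t + ((n : ℝ) - a) ^ 2)) *
      (Real.sqrt ((t + ((n : ℝ) - a) ^ 2) / t) * |P.coeff n|) = N P := by
    refine sum_congr rfl fun n _ => ?_
    rw [← mul_assoc, ← Real.sqrt_mul (by positivity)]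
    have : t / (t + ((n : ℝ) - a) ^ 2) * ((t + ((n : ℝ) - a) ^ 2) / t) = 1 := by
      field_simp
    rw [this, Real.sqrt_one, one_mul]
  have e2 : ∑ n ∈ P.support, Real.sqrt (t / (t + ((n : ℝ) - a) ^ 2)) ^ 2 ≤
      2 * Real.pi * Real.sqrt t := by
    have : ∀ n ∈ P.support, Real.sqrt (t / (t + ((n : ℝ) - a) ^ 2)) ^ 2 =
        t / (t + ((n : ℝ) - a) ^ 2) := fun n _ => Real.sq_sqrt (by positivity)
    rw [sum_congr rfl this]
    refine (sum_le_sum_of_subset_of_nonneg (supp_subset_range (Nat.lt_succ_self _))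
      (fun n _ _ => by positivity)).trans (weight_sum ht a _)
  have e3 : ∑ n ∈ P.support, (Real.sqrt ((t + ((n : ℝ) - a) ^ 2) / t) * |P.coeff n|) ^ 2 =
      ∑ n ∈ P.support, P.coeff n ^ 2 +
      (∑ n ∈ P.support, (((n : ℝ) - a) * P.coeff n) ^ 2) / t := by
    rw [sum_div, ← sum_add_distrib]
    refine sum_congr rfl fun n _ => ?_
    rw [mul_pow, Real.sq_sqrt (by positivity), sq_abs]
    field_simp
  rw [e1, e3] at hCS
  refine hCS.trans ?_
  refine mul_le_mul_of_nonneg_right e2 ?_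
  positivity

/-- Gaussian bound on the circle gives an `l2` bound -/
lemma sum_sq_le (P : ℝ[X]) {A β : ℝ} (hβ : 0 < β)
    (h : ∀ θ : ℝ, |θ| ≤ Real.pi →
      ‖aeval (Complex.exp (θ * Complex.I)) P‖ ^ 2 ≤ A * Real.exp (-β * θ ^ 2)) :
    ∑ n ∈ P.support, P.coeff n ^ 2 ≤ A / Real.sqrt β := by
  have hA : 0 ≤ A := by
    have := (sq_nonneg _).trans (h 0 (by rw [abs_zero]; exact Real.pi_pos.le))
    simpa using this
  set Q : ℂ[X] := P.map (algebraMap ℝ ℂ) with hQ
  have hpars := Q.sum_sq_norm_coeff_eq_circleAverage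
  have hsupp : Q.support = P.support := by
    rw [hQ]
    exact support_map_of_injective _ (algebraMap ℝ ℂ).injective
  have hlhs : ∑ i ∈ Q.support, ‖Q.coeff i‖ ^ 2 = ∑ n ∈ P.support, P.coeff n ^ 2 := by
    rw [hsupp]
    refine sum_congr rfl fun n _ => ?_
    rw [hQ, coeff_map]
    simp
  rw [← hlhs, hpars, Real.circleAverage_def]
  set G : ℝ → ℝ := fun θ => ‖Q.eval (circleMap 0 1 θ)‖ ^ 2 with hG
  have hGc : Continuous G := by
    apply Continuous.pow
    apply Continuous.norm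
    exact Q.continuous.comp (continuous_circleMap 0 1)
  have hGp : Function.Periodic G (2 * Real.pi) := by
    intro θ
    simp only [hG]
    rw [periodic_circleMap 0 1 θ]
  have hshift : ∫ θ in (0 : ℝ)..2 * Real.pi, G θ = ∫ θ in (-Real.pi)..Real.pi, G θ := by
    have := hGp.intervalIntegral_add_eq 0 (-Real.pi)
    rw [zero_add] at this
    rw [this]
    congr 1
    ring
  have hbound : ∀ θ ∈ Set.Icc (-Real.pi) Real.pi, G θ ≤ A * Real.exp (-β * θ ^ 2) := by
    intro θ hθ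
    have h1 := h θ (abs_le.2 hθ)
    simp only [hG]
    have e : circleMap 0 1 θ = Complex.exp (θ * Complex.I) := by simp [circleMap]
    rw [e, hQ, eval_map_algebraMap]
    exact h1
  have hint : Integrable (fun θ : ℝ => A * Real.exp (-β * θ ^ 2)) :=
    (integrable_exp_neg_mul_sq hβ).const_mul A
  have h1 : ∫ θ in (-Real.pi)..Real.pi, G θ ≤
      ∫ θ in (-Real.pi)..Real.pi, A * Real.exp (-β * θ ^ 2) := by
    apply intervalIntegral.integral_mono_on (by linarith [Real.pi_pos])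
      (hGc.intervalIntegrable _ _) hint.intervalIntegrable
    exact hbound
  have h2 : ∫ θ in (-Real.pi)..Real.pi, A * Real.exp (-β * θ ^ 2) ≤
      A * Real.sqrt (Real.pi / β) := by
    rw [intervalIntegral.integral_of_le (by linarith [Real.pi_pos])]
    refine (setIntegral_le_integral hint (Filter.Eventually.of_forall fun θ => by positivity)).trans
      (le_of_eq ?_)
    rw [integral_const_mul, integral_gaussian]
  change (2 * Real.pi)⁻¹ • ∫ θ in (0 : ℝ)..2 * Real.pi, G θ ≤ _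
  rw [hshift, smul_eq_mul]
  have hpi := Real.pi_pos
  calc (2 * Real.pi)⁻¹ * ∫ θ in (-Real.pi)..Real.pi, G θ
      ≤ (2 * Real.pi)⁻¹ * (A * Real.sqrt (Real.pi / β)) :=
        mul_le_mul_of_nonneg_left (h1.trans h2) (by positivity)
    _ ≤ A / Real.sqrt β := by
        rw [Real.sqrt_div hpi.le]
        have h3 : Real.sqrt Real.pi ≤ 2 * Real.pi := by
          rw [Real.sqrt_le_left (by positivity)]
          nlinarith [Real.pi_gt_three]
        have hsβ : 0 < Real.sqrt β := Real.sqrt_pos.2 hβ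
        rw [inv_mul_eq_div, ← mul_div_assoc, div_div]
        rw [div_le_div_iff₀ (by positivity) hsβ]
        nlinarith [mul_nonneg hA hsβ.le]

end Pool.Agent.Work.MP_866acd_pr
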