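import Mathlib

/-!
The coefficient `l1` norm of real polynomials, and its behaviour under products.
-/

namespace Pool.Agent.Work.MP_866acd_pr

open Polynomial Finset

/-- the `l1` norm of the coefficients -/
noncomputable def N (p : ℝ[X]) : ℝ := ∑ k ∈ p.support, |p.coeff k|

lemma N_nonneg (p : ℝ[X]) : 0 ≤ N p := sum_nonneg fun _ _ => abs_nonneg _

lemma N_eq_sum {p : ℝ[X]} {s : Finset ℕ} (hs : p.support ⊆ s) : N p = ∑ k ∈ s, |p.coeff k| := by
  unfold N
  refine sum_subset hs fun k _ hk => ?_
  rw [notMem_support_iff.1 hk, abs_zero]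

lemma N_eq_range {p : ℝ[X]} {n : ℕ} (hn : p.natDegree < n) : N p = ∑ k ∈ range n, |p.coeff k| :=
  N_eq_sum (supp_subset_range hn)

@[simp] lemma N_zero : N (0 : ℝ[X]) = 0 := by simp [N]

lemma N_add_le (p q : ℝ[X]) : N (p + q) ≤ N p + N q := by
  classical
  rw [N_eq_sum (p := p + q) (s := p.support ∪ q.support) support_add,
    N_eq_sum (p := p) (s := p.support ∪ q.support) subset_union_left,
    N_eq_sum (p := q) (s := p.support ∪ q.support) subset_union_right, ← sum_add_distrib]
  refine sum_le_sum fun k _ => ?_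
  rw [coeff_add]
  exact abs_add_le _ _

lemma N_sum_le {ι : Type*} (s : Finset ι) (f : ι → ℝ[X]) : N (∑ i ∈ s, f i) ≤ ∑ i ∈ s, N (f i) := by
  classical
  induction s using Finset.induction_on with
  | empty => simp
  | insert a s ha ih =>
    rw [sum_insert ha, sum_insert ha]
    exact (N_add_le _ _).trans (by linarith)

lemma N_neg (p : ℝ[X]) : N (-p) = N p := by
  unfold N
  rw [support_neg]
  refine sum_congr rfl fun k _ => ?_
  rw [coeff_neg, abs_neg]

lemma N_sub_le (p q : ℝ[X]) : N (p - q) ≤ N p + N q := by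
  rw [sub_eq_add_neg]
  exact (N_add_le _ _).trans (by rw [N_neg])

lemma N_C (a : ℝ) : N (C a) = |a| := by
  rw [N_eq_range (n := 1) (by simp)]
  simp

lemma N_one : N (1 : ℝ[X]) = 1 := by
  have := N_C 1
  simpa using this

lemma N_C_mul (a : ℝ) (p : ℝ[X]) : N (C a * p) = |a| * N p := by
  rw [N_eq_sum (p := C a * p) (s := p.support)]
  · rw [N, mul_sum]
    refine sum_congr rfl fun k _ => ?_
    rw [coeff_C_mul, abs_mul]
  · intro k hk
    rw [mem_support_iff] at hk ⊢
    intro h
    apply hk
    rw [coeff_C_mul, h, mul_zero]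

lemma N_X_mul (p : ℝ[X]) : N (X * p) = N p := by
  have h1 : (X * p).natDegree < p.natDegree + 1 + 1 := by
    have := natDegree_mul_le (p := (X : ℝ[X])) (q := p)
    rw [natDegree_X] at this
    omega
  rw [N_eq_range h1, sum_range_succ', N_eq_range (n := p.natDegree + 1) (by omega)]
  simp

lemma N_mul_le (p q : ℝ[X]) : N (p * q) ≤ N p * N q := by
  have hX : ∀ (k : ℕ) (q : ℝ[X]), N (X ^ k * q) = N q := by
    intro k
    induction k with
    | zero => intro q; simp
    | succ k ih => intro q; rw [pow_succ', mul_assoc, N_X_mul, ih]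
  have h : p * q = ∑ k ∈ p.support, C (p.coeff k) * (X ^ k * q) := by
    conv_lhs => rw [p.as_sum_support_C_mul_X_pow]
    rw [sum_mul]
    refine sum_congr rfl fun k _ => ?_
    ring
  rw [h]
  refine (N_sum_le _ _).trans ?_
  rw [N, sum_mul]
  refine sum_le_sum fun k _ => ?_
  rw [N_C_mul, hX]

lemma abs_eval_one_le (p : ℝ[X]) : |p.eval 1| ≤ N p := by
  rw [eval_eq_sum, Polynomial.sum, N]
  refine (abs_sum_le_sum_abs _ _).trans (le_of_eq ?_)
  refine sum_congr rfl fun k _ => ?_
  simp

/-- the difference variable -/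
noncomputable def z : ℝ[X] := X - 1

lemma N_z : N z ≤ 2 := by
  unfold z
  refine (N_sub_le _ _).trans ?_
  have h : N (X : ℝ[X]) = 1 := by
    have := N_X_mul 1
    rw [mul_one, N_one] at this
    exact this
  rw [h, N_one]; norm_num

/-- discrete Taylor quotient: `p = p(1) + (X - 1) * hat p` -/
noncomputable def hat (p : ℝ[X]) : ℝ[X] := p /ₘ (X - C 1)

lemma hat_spec (p : ℝ[X]) : p = C (p.eval 1) + z * hat p := by
  have h := modByMonic_add_div p (X - C (1 : ℝ))
  rw [modByMonic_X_sub_C_eq_C_eval] at h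
  unfold z hat
  rw [← C_1]
  exact h.symm

lemma z_ne : z ≠ 0 := by
  intro h
  have := congrArg (eval 0) h
  simp [z] at this

lemma hat_add (p q : ℝ[X]) : hat (p + q) = hat p + hat q := by
  have h1 := hat_spec (p + q)
  have h2 := hat_spec p
  have h3 := hat_spec q
  rw [eval_add, C_add] at h1
  apply mul_left_cancel₀ z_ne
  linear_combination h2 + h3 - h1

lemma hat_C (a : ℝ) : hat (C a) = 0 := by
  have h := hat_spec (C a)
  rw [eval_C] at h
  have h2 : z * hat (C a) = 0 := by linear_combination -h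
  exact (mul_eq_zero.1 h2).resolve_left z_ne

lemma hat_X_mul (p : ℝ[X]) : hat (X * p) = p + hat p := by
  have h1 := hat_spec (X * p)
  have h2 := hat_spec p
  rw [eval_mul, eval_X, one_mul] at h1
  apply mul_left_cancel₀ z_ne
  have e : z = X - 1 := rfl
  linear_combination h2 - h1 - p * e

end Pool.Agent.Work.MP_866acd_pr
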