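import Pool.Agent.Work.MP_866acd_pr.Sys
import Pool.Agent.Work.MP_866acd_pr.Conv

/-!
Polynomial level identities and bounds: the derivative of the generating function, the renewal
identity as a power series, and the size of the renewal coefficients.
-/

namespace Pool.Agent.Work.MP_866acd_pr

open Polynomial Finset

variable {V : Type} [Fintype V] (S : Sys V)

namespace Sys

/-- `X d/dX` -/
noncomputable def dX (p : ℝ[X]) : ℝ[X] := X * derivative p

lemma dX_add (p q : ℝ[X]) : dX (p + q) = dX p + dX q := by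
  unfold dX; rw [derivative_add]; ring

lemma dX_C_mul (a : ℝ) (p : ℝ[X]) : dX (C a * p) = C a * dX p := by
  unfold dX; rw [derivative_C_mul]; ring

lemma dX_sum {ι : Type*} (s : Finset ι) (f : ι → ℝ[X]) :
    dX (∑ i ∈ s, f i) = ∑ i ∈ s, dX (f i) := by
  unfold dX; rw [derivative_sum, mul_sum]

lemma dX_Wop (u : V → ℝ[X]) : (fun v => dX (S.Wop u v)) = S.Wop (fun v => dX (u v)) := by
  funext v
  unfold Wop Eop bil ev
  simp only [algebraMap_eq]
  rw [dX_add, dX_sum, mul_comm, dX_C_mul, dX_sum, mul_comm]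
  simp only [dX_C_mul]

lemma dX_Dop (u : V → ℝ[X]) (v : V) : dX (S.Dop X u v) =
    S.Dop X (fun v => dX (u v)) v + C (S.f v) * S.Dop X u v := by
  unfold Dop dX
  simp only [algebraMap_eq]
  have h : (C (S.f v) : ℝ[X]) * C (S.f v) = C (S.f v) := by rw [← C_mul, S.f01]
  simp only [derivative_mul, derivative_add, derivative_sub, derivative_X, derivative_one,
    derivative_C]
  linear_combination (-(X - 1) * u v) * h

lemma Wop_add (a b : V → ℝ[X]) : S.Wop (a + b) = S.Wop a + S.Wop b := by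
  funext v
  simp only [Wop, Pi.add_apply]
  rw [bil_add_right, Eop_add]
  simp only [Pi.add_apply]
  ring

lemma Wop_smul (a : V → ℝ[X]) (r : ℝ[X]) : S.Wop (fun v => r * a v) = fun v => r * S.Wop a v := by
  funext v
  simp only [Wop]
  rw [bil_smul_right, Eop_smul]
  ring

lemma dX_vec (t : ℕ) : ∀ v, dX (S.vec (X : ℝ[X]) t v) =
    C (S.p1 * t) * S.vec X t v + S.dvec X t v := by
  induction t with
  | zero =>
    intro v
    change dX (algebraMap ℝ ℝ[X] (S.e v)) = _ * _ + 0
    unfold dX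
    simp
  | succ t ih =>
    intro v
    have h1 : dX (S.Wop (S.Dop X (S.vec X t)) v) =
        S.Wop (fun v => dX (S.Dop X (S.vec X t) v)) v := congrFun (S.dX_Wop _) v
    have h2 : (fun v => dX (S.Dop X (S.vec X t) v)) =
        (fun v => C (S.p1 * (t + 1 : ℕ)) * S.Dop X (S.vec X t) v) +
          S.Dop X (S.dvec X t + S.Gop (S.vec X t)) := by
      funext w
      rw [dX_Dop]
      simp only [ih, Pi.add_apply, Dop, Gop, algebraMap_eq]
      push_cast
      simp only [map_mul, map_add, map_one, map_natCast]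
      ring
    change dX (S.Wop (S.Dop X (S.vec X t)) v) = C (S.p1 * (t + 1 : ℕ)) *
      S.Wop (S.Dop X (S.vec X t)) v + S.Wop (S.Dop X (S.dvec X t + S.Gop (S.vec X t))) v
    rw [h1, h2, Wop_add, Wop_smul]
    rfl

lemma dX_U (t : ℕ) : dX (S.U (X : ℝ[X]) t) = C (S.p1 * t) * S.U X t +
    bil (S.ev ℝ[X]) (S.dvec X t) := by
  unfold U bil ev
  simp only [algebraMap_eq]
  rw [dX_sum, mul_sum, ← sum_add_distrib]
  refine sum_congr rfl fun v _ => ?_
  rw [dX_C_mul, dX_vec]
  ring

/-! ### the renewal identity -/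

/-- generating series of the sums -/
noncomputable def Ups : PS := PowerSeries.mk fun t => S.U X t

/-- generating series of the renewal coefficients -/
noncomputable def cps : PS := PowerSeries.mk fun k => S.cc X k

/-- generating series of the perturbation iterates -/
noncomputable def cvps (v : V) : PS := PowerSeries.mk fun k => S.cvec X k v

lemma cvps_rec (v : V) : S.cvps v = PowerSeries.C (S.Eop (S.gv ℝ[X]) v) +
    PowerSeries.X * ∑ w, PowerSeries.C (algebraMap ℝ ℝ[X] (S.E v w) *
      (1 + (X - 1) * algebraMap ℝ ℝ[X] (S.f w))) * S.cvps w := by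
  ext1 n
  cases n with
  | zero =>
    rw [map_add, PowerSeries.coeff_zero_X_mul, PowerSeries.coeff_C, if_pos rfl, add_zero]
    unfold cvps
    rw [PowerSeries.coeff_mk]
    rfl
  | succ n =>
    rw [map_add, PowerSeries.coeff_succ_X_mul, PowerSeries.coeff_C, if_neg (by omega), zero_add,
      map_sum]
    unfold cvps
    simp only [PowerSeries.coeff_C_mul, PowerSeries.coeff_mk]
    change S.Eop (S.Dop X (S.cvec X n)) v = _
    unfold Eop Dop
    refine sum_congr rfl fun w _ => ?_
    ring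

lemma beta_coeff (t : ℕ) : ∀ v, S.beta (X : ℝ[X]) (t + 1) v =
    PowerSeries.coeff t (PowerSeries.C z * (S.Ups * S.cvps v)) := by
  have hX : ∀ v, PowerSeries.C z * (S.Ups * S.cvps v) =
      PowerSeries.C (z * S.Eop (S.gv ℝ[X]) v) * S.Ups +
      PowerSeries.X * ∑ w, PowerSeries.C (algebraMap ℝ ℝ[X] (S.E v w) *
      (1 + (X - 1) * algebraMap ℝ ℝ[X] (S.f w))) * (PowerSeries.C z * (S.Ups * S.cvps w)) := by
    intro v
    conv_lhs => rw [cvps_rec]
    rw [mul_add, mul_add, map_mul]
    congr 1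
    · ring
    · rw [mul_sum, mul_sum, mul_sum, mul_sum]
      refine sum_congr rfl fun w _ => ?_
      ring
  induction t with
  | zero =>
    intro v
    rw [hX, map_add, PowerSeries.coeff_zero_X_mul, PowerSeries.coeff_C_mul, add_zero, beta_rec]
    unfold Ups
    rw [PowerSeries.coeff_mk]
    simp only [Pi.add_apply]
    have h0 : S.Eop (S.Dop X (S.beta (X : ℝ[X]) 0)) v = 0 := by
      unfold Eop Dop beta
      simp
    rw [h0]
    unfold z
    ring
  | succ t ih =>
    intro v
    rw [hX, map_add, PowerSeries.coeff_succ_X_mul, PowerSeries.coeff_C_mul, map_sum, beta_rec]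
    simp only [PowerSeries.coeff_C_mul (n := t), Pi.add_apply]
    simp only [PowerSeries.coeff_C_mul (n := t)] at ih
    unfold Ups
    rw [PowerSeries.coeff_mk]
    congr 1
    · unfold z; ring
    · unfold Eop Dop
      refine sum_congr rfl fun w _ => ?_
      rw [ih w]
      unfold Ups
      ring

theorem renewal : S.Ups = 1 + PowerSeries.X * PowerSeries.C (1 + C S.p1 * z) * S.Ups +
    PowerSeries.X ^ 2 * PowerSeries.C (z ^ 2) * S.cps * S.Ups := by
  have hg : ∀ n, ∑ v, S.gv ℝ[X] v * PowerSeries.coeff n (PowerSeries.C z * (S.Ups * S.cvps v)) =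
      PowerSeries.coeff n (PowerSeries.C z * (S.Ups * S.cps)) := by
    intro n
    have e : S.cps = ∑ v, PowerSeries.C (S.gv ℝ[X] v) * S.cvps v := by
      ext1 k
      rw [map_sum]
      unfold cps cvps
      simp only [PowerSeries.coeff_C_mul, PowerSeries.coeff_mk]
      rfl
    rw [e, mul_sum, mul_sum, map_sum]
    refine sum_congr rfl fun v _ => ?_
    have h2 : PowerSeries.C z * (S.Ups * (PowerSeries.C (S.gv ℝ[X] v) * S.cvps v)) =
        PowerSeries.C (S.gv ℝ[X] v) * (PowerSeries.C z * (S.Ups * S.cvps v)) := by ring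
    rw [h2]
    exact (PowerSeries.coeff_C_mul _ _ _).symm
  have e0 : PowerSeries.X * PowerSeries.C (1 + C S.p1 * z) * S.Ups =
      PowerSeries.X * (PowerSeries.C (1 + C S.p1 * z) * S.Ups) := by ring
  have e1 : PowerSeries.X ^ 2 * PowerSeries.C (z ^ 2) * S.cps * S.Ups =
      PowerSeries.X * (PowerSeries.X * (PowerSeries.C z * (PowerSeries.C z * (S.Ups * S.cps)))) := by
    rw [map_pow]; ring
  rw [e0, e1]
  ext1 n
  cases n with
  | zero =>
    rw [map_add, map_add, PowerSeries.coeff_zero_X_mul, PowerSeries.coeff_zero_X_mul]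
    unfold Ups
    rw [PowerSeries.coeff_mk, U_zero]
    simp
  | succ n =>
    rw [map_add, map_add, PowerSeries.coeff_succ_X_mul, PowerSeries.coeff_succ_X_mul,
      PowerSeries.coeff_one, if_neg (by omega), zero_add]
    unfold Ups
    rw [PowerSeries.coeff_mk, U_rec, PowerSeries.coeff_C_mul, PowerSeries.coeff_mk]
    have em : (1 + (X - 1) * algebraMap ℝ ℝ[X] S.p1 : ℝ[X]) = 1 + C S.p1 * z := by
      rw [algebraMap_eq]; unfold z; ring
    rw [em]
    congr 1
    cases n with
    | zero =>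
      rw [PowerSeries.coeff_zero_X_mul]
      unfold bil beta
      simp
    | succ n =>
      rw [PowerSeries.coeff_succ_X_mul, PowerSeries.coeff_C_mul, ← Ups, ← hg]
      congr 1
      unfold bil
      refine sum_congr rfl fun v _ => ?_
      rw [beta_coeff]

/-! ### size of the renewal coefficients -/

/-- the Euclidean norm -/
noncomputable def rn (u : V → ℝ) : ℝ := Real.sqrt (∑ v, u v ^ 2)

lemma rn_nonneg (u : V → ℝ) : 0 ≤ rn u := Real.sqrt_nonneg _

lemma abs_sum_le (a b : V → ℝ) : |∑ v, a v * b v| ≤ rn a * rn b := by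
  unfold rn
  rw [← Real.sqrt_mul (by positivity)]
  apply Real.abs_le_sqrt
  exact Finset.sum_mul_sq_le_sq_mul_sq _ _ _

/-- the real perturbation -/
def Er (u : V → ℝ) (v : V) : ℝ := ∑ w, S.E v w * u w

/-- operator norm bound -/
def Small (lam : ℝ) : Prop := ∀ u : V → ℝ, rn (S.Er u) ≤ lam * rn u

lemma rn_mul_le (h u : V → ℝ) (hh : ∀ v, |h v| ≤ 1) : rn (fun v => h v * u v) ≤ rn u := by
  unfold rn
  apply Real.sqrt_le_sqrt
  refine sum_le_sum fun v _ => ?_
  rw [mul_pow]
  have : h v ^ 2 ≤ 1 := by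
    rw [← sq_abs]
    exact pow_le_one₀ (abs_nonneg _) (hh v)
  nlinarith [sq_nonneg (u v)]

lemma f_abs (v : V) : |S.f v| ≤ 1 := by
  have h := S.f01 v
  rw [abs_le]; constructor <;> nlinarith [sq_nonneg (S.f v), sq_nonneg (S.f v - 1)]

lemma f_abs' (v : V) : |1 - S.f v| ≤ 1 := by
  have h := S.f01 v
  rw [abs_le]; constructor <;> nlinarith [sq_nonneg (S.f v), sq_nonneg (S.f v - 1)]

/-- pairing of the perturbation iterates with a real vector -/
noncomputable def qq (k : ℕ) (u : V → ℝ) : ℝ[X] := bil (S.cvec X k) (fun v => C (u v))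

/-- real centred label -/
def gr (v : V) : ℝ := (S.f v - S.p1) * S.e v

lemma gv_eq : S.gv ℝ[X] = fun v => C (S.gr v) := by
  funext v
  unfold gv Gop gr ev
  simp only [algebraMap_eq, map_mul, map_sub]

lemma qq_zero (u : V → ℝ) : S.qq 0 u = C (∑ v, S.Er S.gr v * u v) := by
  unfold qq bil
  rw [map_sum]
  refine sum_congr rfl fun v _ => ?_
  change S.Eop (S.gv ℝ[X]) v * _ = _
  rw [gv_eq, map_mul]
  congr 1
  unfold Eop Er
  rw [map_sum]
  refine sum_congr rfl fun w _ => ?_
  rw [algebraMap_eq, map_mul]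

lemma qq_succ (k : ℕ) (u : V → ℝ) : S.qq (k + 1) u =
    S.qq k (fun v => (1 - S.f v) * S.Er u v) + X * S.qq k (fun v => S.f v * S.Er u v) := by
  unfold qq
  change bil (S.Eop (S.Dop X (S.cvec X k))) (fun v => C (u v)) = _
  rw [← bil_Eop, ← bil_Dop]
  rw [← bil_smul_right, ← bil_add_right]
  congr 1
  funext v
  simp only [Pi.add_apply, Dop]
  have : S.Eop (fun v => (C (u v) : ℝ[X])) v = C (S.Er u v) := by
    unfold Eop Er
    rw [map_sum]
    refine sum_congr rfl fun w _ => ?_
    rw [algebraMap_eq, map_mul]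
  rw [this, algebraMap_eq]
  simp only [map_mul, map_sub, map_one]
  ring

lemma qq_bound {lam : ℝ} (h0 : 0 ≤ lam) (hl : lam ≤ 1 / 50) (hE : S.Small lam) (k : ℕ) :
    ∀ u : V → ℝ, N (S.qq k u) ≤ rn S.gr * lam * (1 / 4) ^ k * rn u ∧
      N (hat (S.qq k u)) ≤ rn S.gr * lam * (1 / 4) ^ k * rn u := by
  have hg := rn_nonneg S.gr
  induction k with
  | zero =>
    intro u
    have hu := rn_nonneg u
    rw [qq_zero, N_C, hat_C, N_zero, pow_zero, mul_one]
    constructor
    · refine (abs_sum_le _ _).trans ?_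
      have := mul_le_mul_of_nonneg_right (hE S.gr) hu
      linarith
    · positivity
  | succ k ih =>
    intro u
    have hu := rn_nonneg u
    have e1 : rn (fun v => (1 - S.f v) * S.Er u v) ≤ lam * rn u :=
      (rn_mul_le _ _ S.f_abs').trans (hE u)
    have e2 : rn (fun v => S.f v * S.Er u v) ≤ lam * rn u :=
      (rn_mul_le _ _ S.f_abs).trans (hE u)
    obtain ⟨a1, a2⟩ := ih (fun v => (1 - S.f v) * S.Er u v)
    obtain ⟨b1, b2⟩ := ih (fun v => S.f v * S.Er u v)
    have hK : 0 ≤ rn S.gr * lam * (1 / 4) ^ k := by positivity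
    have c1 := a1.trans (mul_le_mul_of_nonneg_left e1 hK)
    have c2 := a2.trans (mul_le_mul_of_nonneg_left e1 hK)
    have d1 := b1.trans (mul_le_mul_of_nonneg_left e2 hK)
    have d2 := b2.trans (mul_le_mul_of_nonneg_left e2 hK)
    have hfin : rn S.gr * lam * (1 / 4) ^ k * (lam * rn u) * 3 ≤
        rn S.gr * lam * (1 / 4) ^ (k + 1) * rn u := by
      have : rn S.gr * lam * (1 / 4) ^ (k + 1) * rn u =
        rn S.gr * lam * (1 / 4) ^ k * rn u * (1 / 4) := by ring
      rw [this]
      have h1 : rn S.gr * lam * (1 / 4) ^ k * (lam * rn u) * 3 =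
        rn S.gr * lam * (1 / 4) ^ k * rn u * (3 * lam) := by ring
      rw [h1]
      apply mul_le_mul_of_nonneg_left _ (by positivity)
      linarith
    have hpos : 0 ≤ rn S.gr * lam * (1 / 4) ^ k * (lam * rn u) := by positivity
    rw [qq_succ]
    constructor
    · refine (N_add_le _ _).trans ?_
      rw [N_X_mul]
      linarith
    · rw [hat_add, hat_X_mul]
      refine (N_add_le _ _).trans ?_
      have := N_add_le (S.qq k (fun v => S.f v * S.Er u v)) (hat (S.qq k (fun v => S.f v * S.Er u v)))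
      linarith

lemma cc_eq (k : ℕ) : S.cc X k = S.qq k S.gr := by
  unfold cc qq
  rw [bil_comm, gv_eq]

lemma rn_gr_sq : rn S.gr ^ 2 = S.p1 * (1 - S.p1) := by
  unfold rn
  rw [Real.sq_sqrt (by positivity)]
  have h := S.gv_sq (R := ℝ)
  unfold bil gv Gop ev at h
  simp only [Algebra.algebraMap_self, RingHom.id_apply] at h
  rw [← h]
  refine sum_congr rfl fun v _ => ?_
  unfold gr
  ring

lemma cc_bound {lam : ℝ} (h0 : 0 ≤ lam) (hl : lam ≤ 1 / 50) (hE : S.Small lam) (k : ℕ) :
    N (S.cc X k) ≤ S.p1 * (1 - S.p1) * lam * (1 / 4) ^ k ∧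
      N (hat (S.cc X k)) ≤ S.p1 * (1 - S.p1) * lam * (1 / 4) ^ k := by
  have h := S.qq_bound h0 hl hE k S.gr
  rw [cc_eq, ← rn_gr_sq]
  constructor
  · refine h.1.trans (le_of_eq ?_); ring
  · refine h.2.trans (le_of_eq ?_); ring

end Sys

end Pool.Agent.Work.MP_866acd_pr
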