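import Pool.Agent.Work.MP_866acd_pr.Cplx
import Pool.Agent.Work.MP_866acd_pr.Fourier

/-!
Smoothness of the law of the sum: `N (z^j * U_t)^2 ≤ C / (t+1)^j`.
-/

namespace Pool.Agent.Work.MP_866acd_pr

open Polynomial Finset

lemma norm_exp_sub_one_sq (θ : ℝ) :
    ‖Complex.exp (θ * Complex.I) - 1‖ ^ 2 = 2 - 2 * Real.cos θ := by
  rw [Complex.sq_norm, Complex.normSq_apply, Complex.exp_mul_I]
  simp only [Complex.sub_re, Complex.add_re, Complex.cos_ofReal_re, Complex.mul_re,
    Complex.sin_ofReal_re, Complex.I_re, mul_zero, Complex.sin_ofReal_im, Complex.I_im, mul_one,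
    sub_self, add_zero, Complex.one_re, Complex.sub_im, Complex.add_im, Complex.cos_ofReal_im,
    Complex.mul_im, zero_add, Complex.one_im, sub_zero]
  nlinarith [Real.sin_sq_add_cos_sq θ]

lemma q_lower {θ : ℝ} (hθ : |θ| ≤ Real.pi) :
    4 / Real.pi ^ 2 * θ ^ 2 ≤ ‖Complex.exp (θ * Complex.I) - 1‖ ^ 2 := by
  rw [norm_exp_sub_one_sq]
  have := Real.cos_le_one_sub_mul_cos_sq hθ
  have e : 4 / Real.pi ^ 2 * θ ^ 2 = 2 * (2 / Real.pi ^ 2 * θ ^ 2) := by ring
  rw [e]; linarith

lemma norm_exp (θ : ℝ) : ‖Complex.exp (θ * Complex.I)‖ = 1 := Complex.norm_exp_ofReal_mul_I θ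

/-- polynomial times Gaussian -/
lemma pow_mul_exp_le (m : ℕ) {c T q : ℝ} (hc : 0 < c) (hT : 0 < T) (hq : 0 ≤ q) :
    q ^ m * Real.exp (-(2 * c * q * T)) ≤
      (m.factorial / c ^ m) / T ^ m * Real.exp (-(c * q * T)) := by
  have h1 := Real.pow_div_factorial_le_exp (c * q * T) (by positivity) m
  have h2 : Real.exp (-(2 * c * q * T)) = Real.exp (-(c * q * T)) * Real.exp (-(c * q * T)) := by
    rw [← Real.exp_add]; congr 1; ring
  have h3 : (c * q * T) ^ m * Real.exp (-(c * q * T)) ≤ m.factorial := by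
    rw [div_le_iff₀ (by positivity)] at h1
    have h4 : Real.exp (c * q * T) * Real.exp (-(c * q * T)) = 1 := by
      rw [← Real.exp_add]; simp
    calc (c * q * T) ^ m * Real.exp (-(c * q * T))
        ≤ (Real.exp (c * q * T) * m.factorial) * Real.exp (-(c * q * T)) :=
          mul_le_mul_of_nonneg_right h1 (Real.exp_pos _).le
      _ = Real.exp (c * q * T) * Real.exp (-(c * q * T)) * m.factorial := by ring
      _ = m.factorial := by rw [h4, one_mul]
  have h5 : q ^ m = (c * q * T) ^ m / (c ^ m * T ^ m) := by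
    rw [mul_pow, mul_pow]; field_simp
  rw [h2, h5]
  calc (c * q * T) ^ m / (c ^ m * T ^ m) * (Real.exp (-(c * q * T)) * Real.exp (-(c * q * T)))
      = ((c * q * T) ^ m * Real.exp (-(c * q * T))) / (c ^ m * T ^ m) *
          Real.exp (-(c * q * T)) := by ring
    _ ≤ m.factorial / (c ^ m * T ^ m) * Real.exp (-(c * q * T)) := by
        apply mul_le_mul_of_nonneg_right _ (Real.exp_pos _).le
        exact div_le_div_of_nonneg_right h3 (by positivity)
    _ = _ := by rw [div_div]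

variable {V : Type} [Fintype V] (S : Sys V)

namespace Sys

/-- pointwise bound -/
lemma ptw (hK : 0 < rn S.gr ^ 2) {t : ℕ} (ht : 0 < t) {θ : ℝ} (hθ : |θ| ≤ Real.pi) (m : ℕ) :
    (‖Complex.exp (θ * Complex.I) - 1‖ ^ 2) ^ m *
      (S.rho (Complex.exp (θ * Complex.I)) ^ t) ^ 2 ≤
    (m.factorial / (9 / 20 * rn S.gr ^ 2) ^ m) / (t : ℝ) ^ m *
      Real.exp (-(9 / 20 * rn S.gr ^ 2 * (4 / Real.pi ^ 2) * t) * θ ^ 2) := by
  set y := Complex.exp (θ * Complex.I) with hy
  have hy1 : ‖y‖ = 1 := norm_exp θ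
  set K := rn S.gr ^ 2 with hKdef
  set q := ‖y - 1‖ ^ 2 with hq
  have hT : (0 : ℝ) < t := by exact_mod_cast ht
  have hρ := S.rho_ge hy1
  have h1 : S.rho y ≤ Real.exp (-(9 / 20 * K * q)) := by
    have := Real.add_one_le_exp (-(9 / 20 * K * q))
    have e : S.rho y = -(9 / 20 * K * q) + 1 := by
      unfold rho; rw [hKdef, hq]; ring
    rw [e]; exact this
  have h2 : (S.rho y ^ t) ^ 2 ≤ Real.exp (-(2 * (9 / 20 * K) * q * t)) := by
    rw [← pow_mul]
    refine (pow_le_pow_left₀ (by linarith) h1 _).trans (le_of_eq ?_)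
    rw [← Real.exp_nat_mul]
    congr 1
    push_cast
    ring
  have hq0 : 0 ≤ q := sq_nonneg _
  calc q ^ m * (S.rho y ^ t) ^ 2 ≤ q ^ m * Real.exp (-(2 * (9 / 20 * K) * q * t)) :=
        mul_le_mul_of_nonneg_left h2 (by positivity)
    _ ≤ (m.factorial / (9 / 20 * K) ^ m) / (t : ℝ) ^ m * Real.exp (-(9 / 20 * K * q * t)) :=
        pow_mul_exp_le m (by positivity) hT hq0
    _ ≤ _ := by
        apply mul_le_mul_of_nonneg_left _ (by positivity)
        apply Real.exp_le_exp.2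
        have h3 := q_lower hθ
        have h4 : 9 / 20 * K * t * (4 / Real.pi ^ 2 * θ ^ 2) ≤ 9 / 20 * K * t * q :=
          mul_le_mul_of_nonneg_left h3 (by positivity)
        linarith

/-- the weighted polynomial -/
lemma coeff_dX (P : ℝ[X]) (a : ℝ) (n : ℕ) :
    (dX P - C a * P).coeff n = ((n : ℝ) - a) * P.coeff n := by
  unfold dX
  rw [coeff_sub, coeff_C_mul]
  cases n with
  | zero => simp
  | succ n => rw [coeff_X_mul, coeff_derivative]; push_cast; ring

lemma dX_zpow (j : ℕ) (U D : ℝ[X]) (a : ℝ) (h : dX U = C a * U + D) :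
    dX (z ^ j * U) - C a * (z ^ j * U) = C (j : ℝ) * X * z ^ (j - 1) * U + z ^ j * D := by
  unfold dX at *
  rw [derivative_mul, derivative_pow]
  have hz : derivative z = 1 := by unfold z; simp
  rw [hz]
  simp only [map_natCast]
  linear_combination z ^ j * h

theorem smooth {p : ℝ} (hp0 : 0 < p) (hp1 : p < 1) (j : ℕ) : ∃ C : ℝ, 0 ≤ C ∧
    ∀ (V : Type) [Fintype V] (S : Sys V), S.p1 = p → ∀ lam : ℝ, 0 ≤ lam → lam ≤ 1 / 50 →
      S.Small lam → ∀ t : ℕ, N (z ^ j * S.U X t) ^ 2 ≤ C / ((t : ℝ) + 1) ^ j := by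
  set K := p * (1 - p) with hK
  have hK0 : 0 < K := mul_pos hp0 (by linarith)
  set A : ℕ → ℝ := fun m => m.factorial / (9 / 20 * K) ^ m with hA
  have hA0 : ∀ m, 0 ≤ A m := fun m => by simp only [hA]; positivity
  set b := 9 / 20 * K * (4 / Real.pi ^ 2) with hb
  have hb0 : 0 < b := by positivity
  set A' := 2 * (j : ℝ) ^ 2 * A (j - 1) + 8 * K * A (j + 1) with hA'
  have hA'0 : 0 ≤ A' := by
    have h1 := hA0 (j - 1)
    have h2 := hA0 (j + 1)
    positivity
  refine ⟨4 ^ j + 2 ^ j * (2 * Real.pi * (A j + A') / Real.sqrt b), by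
    have := hA0 j
    positivity, ?_⟩
  intro V _ S hSp lam h0 hl hE t
  have hKS : rn S.gr ^ 2 = K := by rw [rn_gr_sq, hSp]
  have hzj : N (z ^ j) ≤ 2 ^ j := by
    clear hA' hA'0 A'
    induction j with
    | zero => rw [pow_zero, pow_zero, N_one]
    | succ j ih =>
      rw [pow_succ, pow_succ]
      exact (N_mul_le _ _).trans (mul_le_mul ih N_z (N_nonneg _) (by positivity))
  rcases Nat.eq_zero_or_pos t with ht | ht
  · subst ht
    rw [U_zero, mul_one]
    have h1 : N (z ^ j) ^ 2 ≤ (2 ^ j) ^ 2 := pow_le_pow_left₀ (N_nonneg _) hzj 2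
    have h2 : ((2 : ℝ) ^ j) ^ 2 = 4 ^ j := by rw [← pow_mul, mul_comm, pow_mul]; norm_num
    rw [h2] at h1
    have h3 := hA0 j
    have h4 : 0 ≤ 2 ^ j * (2 * Real.pi * (A j + A') / Real.sqrt b) := by positivity
    simp only [Nat.cast_zero, zero_add, one_pow, div_one]
    linarith
  · set T : ℝ := (t : ℝ) with hTdef
    have hT1 : 1 ≤ T := by rw [hTdef]; exact_mod_cast ht
    have hT0 : 0 < T := by linarith
    set P := z ^ j * S.U X t with hP
    set a := S.p1 * T with ha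
    have hbT : 0 < b * T := by positivity
    have hptw : ∀ m : ℕ, ∀ θ : ℝ, |θ| ≤ Real.pi →
        (‖Complex.exp (θ * Complex.I) - 1‖ ^ 2) ^ m *
          (S.rho (Complex.exp (θ * Complex.I)) ^ t) ^ 2 ≤
        A m / T ^ m * Real.exp (-(b * T) * θ ^ 2) := by
      intro m θ hθ
      have := S.ptw (by rw [hKS]; exact hK0) ht hθ m
      rw [hKS] at this
      simpa only [hA, hb, hTdef] using this
    have hevalz : ∀ y : ℂ, aeval y z = y - 1 := by intro y; unfold z; simp
    -- first sum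
    have hs1 : ∑ n ∈ P.support, P.coeff n ^ 2 ≤ A j / T ^ j / Real.sqrt (b * T) := by
      apply sum_sq_le P hbT
      intro θ hθ
      set y := Complex.exp (θ * Complex.I) with hy
      have hy1 : ‖y‖ = 1 := norm_exp θ
      refine le_trans ?_ (hptw j θ hθ)
      rw [hP, map_mul, map_pow, hevalz, map_U, aeval_X, norm_mul, norm_pow, mul_pow]
      have h1 := (S.bounds h0 hl hE hy1 t).1
      have e : (‖y - 1‖ ^ j) ^ 2 = (‖y - 1‖ ^ 2) ^ j := by rw [← pow_mul, ← pow_mul, mul_comm]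
      rw [e]
      exact mul_le_mul_of_nonneg_left (pow_le_pow_left₀ (norm_nonneg _) h1 2) (by positivity)
    -- second sum
    set Q := dX P - C a * P with hQ
    have hs2 : ∑ n ∈ Q.support, Q.coeff n ^ 2 ≤ T * A' / T ^ j / Real.sqrt (b * T) := by
      apply sum_sq_le Q hbT
      intro θ hθ
      set y := Complex.exp (θ * Complex.I) with hy
      have hy1 : ‖y‖ = 1 := norm_exp θ
      set q := ‖y - 1‖ ^ 2 with hq
      have hρ := S.rho_ge hy1
      have hQe : Q = C (j : ℝ) * X * z ^ (j - 1) * S.U X t + z ^ j * bil (S.ev ℝ[X]) (S.dvec X t) := by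
        rw [hQ, hP]
        exact dX_zpow j _ _ _ (S.dX_U t)
      have hbe : aeval y (bil (S.ev ℝ[X]) (S.dvec X t)) = bil (S.ev ℂ) (S.dvec y t) := by
        rw [map_bil, map_ev, map_dvec, aeval_X]
      have hev : aeval y Q = (j : ℂ) * y * (y - 1) ^ (j - 1) * S.U y t +
          (y - 1) ^ j * bil (S.ev ℂ) (S.dvec y t) := by
        rw [hQe, map_add, map_mul, map_mul, map_mul, map_mul, hbe, map_pow, map_pow, hevalz,
          map_U, aeval_X, aeval_C]
        simp
      have hU := (S.bounds h0 hl hE hy1 t).1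
      have hd : ‖bil (S.ev ℂ) (S.dvec y t)‖ ≤ T * (rn S.gr * ‖y - 1‖) * S.rho y ^ (t - 1) := by
        obtain ⟨t', rfl⟩ : ∃ t', t = t' + 1 := ⟨t - 1, by omega⟩
        have := S.dbound h0 hl hE hy1 t'
        rw [hTdef]
        push_cast
        exact this
      have hρt : S.rho y ^ (t - 1) ≤ 2 * S.rho y ^ t := by
        obtain ⟨t', rfl⟩ : ∃ t', t = t' + 1 := ⟨t - 1, by omega⟩
        rw [Nat.add_sub_cancel, pow_succ]
        have : 0 ≤ S.rho y ^ t' := by positivity
        nlinarith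
      have hρ0 : 0 ≤ S.rho y ^ t := by positivity
      have n1 : ‖(j : ℂ) * y * (y - 1) ^ (j - 1) * S.U y t‖ ≤
          j * ‖y - 1‖ ^ (j - 1) * S.rho y ^ t := by
        rw [norm_mul, norm_mul, norm_mul, norm_pow, hy1, Complex.norm_natCast, mul_one]
        exact mul_le_mul_of_nonneg_left hU (by positivity)
      have n2 : ‖(y - 1) ^ j * bil (S.ev ℂ) (S.dvec y t)‖ ≤
          ‖y - 1‖ ^ j * (T * (rn S.gr * ‖y - 1‖) * (2 * S.rho y ^ t)) := by
        rw [norm_mul, norm_pow]
        apply mul_le_mul_of_nonneg_left _ (by positivity)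
        have hpos : 0 ≤ T * (rn S.gr * ‖y - 1‖) := by
          have := rn_nonneg S.gr
          positivity
        exact hd.trans (mul_le_mul_of_nonneg_left hρt hpos)
      have n3 : ‖aeval y Q‖ ^ 2 ≤ 2 * (j * ‖y - 1‖ ^ (j - 1) * S.rho y ^ t) ^ 2 +
          2 * (‖y - 1‖ ^ j * (T * (rn S.gr * ‖y - 1‖) * (2 * S.rho y ^ t))) ^ 2 := by
        rw [hev]
        have h1 := (norm_add_le ((j : ℂ) * y * (y - 1) ^ (j - 1) * S.U y t)
          ((y - 1) ^ j * bil (S.ev ℂ) (S.dvec y t))).trans (add_le_add n1 n2)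
        have h2 := pow_le_pow_left₀ (norm_nonneg _) h1 2
        refine h2.trans ?_
        nlinarith [sq_nonneg (j * ‖y - 1‖ ^ (j - 1) * S.rho y ^ t -
          ‖y - 1‖ ^ j * (T * (rn S.gr * ‖y - 1‖) * (2 * S.rho y ^ t)))]
      refine n3.trans ?_
      have m1 : 2 * (j * ‖y - 1‖ ^ (j - 1) * S.rho y ^ t) ^ 2 =
          2 * (j : ℝ) ^ 2 * (q ^ (j - 1) * (S.rho y ^ t) ^ 2) := by
        rw [hq, mul_pow, mul_pow, ← pow_mul, ← pow_mul, mul_comm (j - 1) 2]; ring
      have m2 : 2 * (‖y - 1‖ ^ j * (T * (rn S.gr * ‖y - 1‖) * (2 * S.rho y ^ t))) ^ 2 =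
          8 * K * T ^ 2 * (q ^ (j + 1) * (S.rho y ^ t) ^ 2) := by
        rw [hq, ← hKS]; ring
      rw [m1, m2]
      have p1 := mul_le_mul_of_nonneg_left (hptw (j - 1) θ hθ) (by positivity : 0 ≤ 2 * (j : ℝ) ^ 2)
      have p2 := mul_le_mul_of_nonneg_left (hptw (j + 1) θ hθ) (by positivity : 0 ≤ 8 * K * T ^ 2)
      refine (add_le_add p1 p2).trans (le_of_eq ?_)
      have hTj : (j : ℝ) ^ 2 * (1 / T ^ (j - 1)) = (j : ℝ) ^ 2 * (T / T ^ j) := by
        cases j with
        | zero => simp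
        | succ j =>
          rw [Nat.add_sub_cancel, pow_succ T j]
          congr 1
          field_simp
      have hTj2 : T ^ 2 * (1 / T ^ (j + 1)) = T / T ^ j := by
        rw [pow_succ T j]; field_simp
      have f1 : 2 * (j : ℝ) ^ 2 * (A (j - 1) / T ^ (j - 1) * Real.exp (-(b * T) * θ ^ 2)) =
          2 * ((j : ℝ) ^ 2 * (1 / T ^ (j - 1))) * A (j - 1) * Real.exp (-(b * T) * θ ^ 2) := by ring
      have f2 : 8 * K * T ^ 2 * (A (j + 1) / T ^ (j + 1) * Real.exp (-(b * T) * θ ^ 2)) =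
          8 * K * (T ^ 2 * (1 / T ^ (j + 1))) * A (j + 1) * Real.exp (-(b * T) * θ ^ 2) := by ring
      rw [f1, f2, hTj, hTj2, hA']
      ring
    have hs3 : ∑ n ∈ P.support, (((n : ℝ) - a) * P.coeff n) ^ 2 ≤
        T * A' / T ^ j / Real.sqrt (b * T) := by
      refine le_trans (le_of_eq ?_) hs2
      have hsub : Q.support ⊆ P.support := by
        intro n hn
        rw [mem_support_iff] at hn ⊢
        intro h
        apply hn
        rw [hQ, coeff_dX, h, mul_zero]
      have h1 : ∀ n : ℕ, (((n : ℝ) - a) * P.coeff n) ^ 2 = Q.coeff n ^ 2 := by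
        intro n; rw [hQ, coeff_dX]
      simp only [h1]
      symm
      refine sum_subset hsub fun n _ hn => ?_
      rw [notMem_support_iff.1 hn]; ring
    have hN := N_sq_le P hT1 a
    refine hN.trans ?_
    have hAj := hA0 j
    have hsb : 0 < Real.sqrt b := Real.sqrt_pos.2 hb0
    have hsT : 0 < Real.sqrt T := Real.sqrt_pos.2 hT0
    have g1 : ∑ n ∈ P.support, P.coeff n ^ 2 +
        (∑ n ∈ P.support, (((n : ℝ) - a) * P.coeff n) ^ 2) / T ≤
        (A j + A') / T ^ j / Real.sqrt (b * T) := by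
      have h1 := div_le_div_of_nonneg_right hs3 hT0.le
      have h2 : T * A' / T ^ j / Real.sqrt (b * T) / T = A' / T ^ j / Real.sqrt (b * T) := by
        field_simp
      rw [h2] at h1
      have h3 : (A j + A') / T ^ j / Real.sqrt (b * T) =
          A j / T ^ j / Real.sqrt (b * T) + A' / T ^ j / Real.sqrt (b * T) := by
        rw [add_div, add_div]
      rw [h3]
      exact add_le_add hs1 h1
    have g2 := mul_le_mul_of_nonneg_left g1 (by positivity : 0 ≤ 2 * Real.pi * Real.sqrt T)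
    refine g2.trans ?_
    have g3 : 2 * Real.pi * Real.sqrt T * ((A j + A') / T ^ j / Real.sqrt (b * T)) =
        2 * Real.pi * (A j + A') / Real.sqrt b * (1 / T ^ j) := by
      rw [Real.sqrt_mul hb0.le]
      field_simp
    rw [g3]
    have g4 : 1 / T ^ j ≤ 2 ^ j / (T + 1) ^ j := by
      rw [div_le_div_iff₀ (by positivity) (by positivity), one_mul, ← mul_pow]
      apply pow_le_pow_left₀ (by positivity)
      linarith
    have g5 := mul_le_mul_of_nonneg_left g4
      (by positivity : 0 ≤ 2 * Real.pi * (A j + A') / Real.sqrt b)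
    refine g5.trans ?_
    rw [add_div]
    have g6 : 2 * Real.pi * (A j + A') / Real.sqrt b * (2 ^ j / (T + 1) ^ j) =
        2 ^ j * (2 * Real.pi * (A j + A') / Real.sqrt b) / (T + 1) ^ j := by ring
    rw [g6]
    have : 0 ≤ (4 : ℝ) ^ j / (T + 1) ^ j := by positivity
    linarith

end Sys

end Pool.Agent.Work.MP_866acd_pr
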