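import Mathlib

/-!
The algebra of the transfer operators, over a commutative `ℝ`-algebra.
-/

namespace Pool.Agent.Work.MP_866acd_pr

open Finset

set_option linter.unusedSectionVars false

/-- A rank one projection `e e^T`, a symmetric perturbation `E` killing `e`, and a diagonal
projection `f`. -/
structure Sys (V : Type) [Fintype V] where
  E : V → V → ℝ
  e : V → ℝ
  f : V → ℝ
  symm : ∀ v w, E v w = E w v
  unit : ∑ v, e v * e v = 1
  ann : ∀ v, ∑ w, E v w * e w = 0
  f01 : ∀ v, f v * f v = f v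

variable {V : Type} [Fintype V] (S : Sys V) {R R' : Type} [CommRing R] [Algebra ℝ R]
  [CommRing R'] [Algebra ℝ R']

namespace Sys

/-- bilinear form -/
def bil (a b : V → R) : R := ∑ v, a v * b v

/-- the vector `e` -/
def ev (R : Type) [CommRing R] [Algebra ℝ R] (v : V) : R := algebraMap ℝ R (S.e v)

/-- the perturbation -/
def Eop (u : V → R) (v : V) : R := ∑ w, algebraMap ℝ R (S.E v w) * u w

/-- the transition operator -/
def Wop (u : V → R) (v : V) : R := bil (S.ev R) u * S.ev R v + S.Eop u v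

/-- multiplication by `y^f` -/
def Dop (y : R) (u : V → R) (v : V) : R := (1 + (y - 1) * algebraMap ℝ R (S.f v)) * u v

/-- probability of label one -/
def p1 : ℝ := ∑ v, S.f v * (S.e v * S.e v)

/-- multiplication by `f - p1` -/
def Gop (u : V → R) (v : V) : R := (algebraMap ℝ R (S.f v) - algebraMap ℝ R S.p1) * u v

/-- iterates -/
def vec (y : R) : ℕ → V → R
  | 0 => S.ev R
  | t + 1 => S.Wop (S.Dop y (vec y t))

/-- generating function of the sum -/
def U (y : R) (t : ℕ) : R := bil (S.ev R) (S.vec y t)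

/-- centred label vector -/
def gv (R : Type) [CommRing R] [Algebra ℝ R] : V → R := S.Gop (S.ev R)

/-- perturbation iterates -/
def cvec (y : R) : ℕ → V → R
  | 0 => S.Eop (S.gv R)
  | k + 1 => S.Eop (S.Dop y (cvec y k))

/-- renewal coefficients -/
def cc (y : R) (k : ℕ) : R := bil (S.gv R) (S.cvec y k)

lemma bil_add_right (a b c : V → R) : bil a (b + c) = bil a b + bil a c := by
  unfold bil
  rw [← sum_add_distrib]
  exact sum_congr rfl fun v _ => by simp only [Pi.add_apply]; ring

lemma bil_add_left (a b c : V → R) : bil (a + b) c = bil a c + bil b c := by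
  unfold bil
  rw [← sum_add_distrib]
  exact sum_congr rfl fun v _ => by simp only [Pi.add_apply]; ring

lemma bil_smul_right (a b : V → R) (r : R) : bil a (fun v => r * b v) = r * bil a b := by
  unfold bil
  rw [mul_sum]
  exact sum_congr rfl fun v _ => by ring

lemma bil_smul_left (a b : V → R) (r : R) : bil (fun v => r * a v) b = r * bil a b := by
  unfold bil
  rw [mul_sum]
  exact sum_congr rfl fun v _ => by ring

lemma bil_comm (a b : V → R) : bil a b = bil b a := by
  unfold bil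
  exact sum_congr rfl fun v _ => by ring

lemma Eop_add (a b : V → R) : S.Eop (a + b) = S.Eop a + S.Eop b := by
  funext v
  unfold Eop
  rw [Pi.add_apply, ← sum_add_distrib]
  exact sum_congr rfl fun v _ => by simp only [Pi.add_apply]; ring

lemma Eop_smul (a : V → R) (r : R) : S.Eop (fun v => r * a v) = fun v => r * S.Eop a v := by
  funext v
  unfold Eop
  rw [mul_sum]
  exact sum_congr rfl fun v _ => by ring

lemma bil_Eop (a b : V → R) : bil a (S.Eop b) = bil (S.Eop a) b := by
  unfold bil Eop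
  simp only [mul_sum, sum_mul]
  rw [sum_comm]
  refine sum_congr rfl fun v _ => sum_congr rfl fun w _ => ?_
  rw [S.symm w v]
  ring

lemma bil_Dop (y : R) (a b : V → R) : bil a (S.Dop y b) = bil (S.Dop y a) b := by
  unfold bil Dop
  exact sum_congr rfl fun v _ => by ring

lemma bil_ev_ev : bil (S.ev R) (S.ev R) = 1 := by
  unfold bil ev
  have : ∀ v, algebraMap ℝ R (S.e v) * algebraMap ℝ R (S.e v) = algebraMap ℝ R (S.e v * S.e v) :=
    fun v => by rw [map_mul]
  simp only [this]
  rw [← map_sum, S.unit, map_one]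

lemma Eop_ev : S.Eop (S.ev R) = 0 := by
  funext v
  unfold Eop ev
  have : ∀ w, algebraMap ℝ R (S.E v w) * algebraMap ℝ R (S.e w) =
      algebraMap ℝ R (S.E v w * S.e w) := fun w => by rw [map_mul]
  simp only [this]
  rw [← map_sum, S.ann, map_zero]
  rfl

lemma bil_ev_Eop (a : V → R) : bil (S.ev R) (S.Eop a) = 0 := by
  rw [bil_Eop, Eop_ev]
  unfold bil
  simp

lemma Wop_ev : S.Wop (S.ev R) = S.ev R := by
  funext v
  unfold Wop
  rw [bil_ev_ev, Eop_ev]
  simp

lemma bil_Wop (a b : V → R) : bil a (S.Wop b) = bil (S.Wop a) b := by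
  have h : ∀ c : V → R, S.Wop c = (fun v => bil (S.ev R) c * S.ev R v) + S.Eop c := fun c => rfl
  rw [h, h, bil_add_right, bil_add_left, bil_smul_right, bil_smul_left, bil_Eop,
    bil_comm a (S.ev R)]
  ring

lemma bil_ev_Wop (a : V → R) : bil (S.ev R) (S.Wop a) = bil (S.ev R) a := by
  rw [bil_Wop, Wop_ev]

lemma U_zero (y : R) : S.U y 0 = 1 := S.bil_ev_ev

lemma U_succ (y : R) (t : ℕ) : S.U y (t + 1) = bil (S.ev R) (S.Dop y (S.vec y t)) := by
  unfold U
  change bil (S.ev R) (S.Wop (S.Dop y (S.vec y t))) = _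
  rw [bil_ev_Wop]

/-- the orthogonal part of the iterate -/
def beta (y : R) : ℕ → V → R
  | 0 => 0
  | t + 1 => S.Eop (S.Dop y (S.vec y t))

lemma vec_eq (y : R) (t : ℕ) : S.vec y t = (fun v => S.U y t * S.ev R v) + S.beta y t := by
  cases t with
  | zero =>
    funext v
    change S.ev R v = S.U y 0 * S.ev R v + 0
    rw [U_zero]; ring
  | succ t =>
    funext v
    change S.Wop (S.Dop y (S.vec y t)) v = S.U y (t + 1) * S.ev R v +
      S.Eop (S.Dop y (S.vec y t)) v
    rw [U_succ]
    rfl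

lemma bil_ev_beta (y : R) (t : ℕ) : bil (S.ev R) (S.beta y t) = 0 := by
  cases t with
  | zero => unfold bil beta; simp
  | succ t => exact S.bil_ev_Eop _

lemma bil_ev_gv : bil (S.ev R) (S.gv R) = 0 := by
  unfold bil gv Gop ev
  have : ∀ v, algebraMap ℝ R (S.e v) * ((algebraMap ℝ R (S.f v) - algebraMap ℝ R S.p1) *
      algebraMap ℝ R (S.e v)) = algebraMap ℝ R (S.f v * (S.e v * S.e v) -
        S.p1 * (S.e v * S.e v)) := by
    intro v; simp only [map_sub, map_mul]; ring
  simp only [this]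
  rw [← map_sum, sum_sub_distrib, ← mul_sum, S.unit, mul_one]
  change algebraMap ℝ R (S.p1 - S.p1) = 0
  rw [sub_self, map_zero]

lemma Dop_ev (y : R) : S.Dop y (S.ev R) =
    (fun v => (1 + (y - 1) * algebraMap ℝ R S.p1) * S.ev R v) + fun v => (y - 1) * S.gv R v := by
  funext v
  simp only [Pi.add_apply, Dop, gv, Gop]
  ring

lemma Dop_add (y : R) (a b : V → R) : S.Dop y (a + b) = S.Dop y a + S.Dop y b := by
  funext v
  simp only [Pi.add_apply, Dop]
  ring

lemma Dop_smul (y : R) (a : V → R) (r : R) :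
    S.Dop y (fun v => r * a v) = fun v => r * S.Dop y a v := by
  funext v
  simp only [Dop]
  ring

/-- recursion for the mean part -/
lemma U_rec (y : R) (t : ℕ) : S.U y (t + 1) =
    (1 + (y - 1) * algebraMap ℝ R S.p1) * S.U y t + (y - 1) * bil (S.gv R) (S.beta y t) := by
  rw [U_succ, vec_eq, Dop_add, bil_add_right, Dop_smul, bil_smul_right]
  have h1 : bil (S.ev R) (S.Dop y (S.ev R)) = 1 + (y - 1) * algebraMap ℝ R S.p1 := by
    rw [Dop_ev, bil_add_right, bil_smul_right, bil_smul_right, bil_ev_ev, bil_ev_gv]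
    ring
  have h2 : bil (S.ev R) (S.Dop y (S.beta y t)) = (y - 1) * bil (S.gv R) (S.beta y t) := by
    rw [bil_Dop, Dop_ev, bil_add_left, bil_smul_left, bil_smul_left, bil_ev_beta]
    ring
  rw [h1, h2]
  ring

/-- recursion for the orthogonal part -/
lemma beta_rec (y : R) (t : ℕ) : S.beta y (t + 1) =
    (fun v => (S.U y t * (y - 1)) * S.Eop (S.gv R) v) + S.Eop (S.Dop y (S.beta y t)) := by
  change S.Eop (S.Dop y (S.vec y t)) = _
  rw [vec_eq, Dop_add, Dop_smul, Dop_ev, Eop_add, Eop_smul, Eop_add, Eop_smul, Eop_smul, Eop_ev]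
  funext v
  simp only [Pi.add_apply, Pi.zero_apply]
  ring

lemma gv_sq : bil (S.gv R) (S.gv R) = algebraMap ℝ R (S.p1 * (1 - S.p1)) := by
  unfold bil gv Gop ev
  have : ∀ v, ((algebraMap ℝ R (S.f v) - algebraMap ℝ R S.p1) * algebraMap ℝ R (S.e v)) *
      ((algebraMap ℝ R (S.f v) - algebraMap ℝ R S.p1) * algebraMap ℝ R (S.e v)) =
      algebraMap ℝ R ((1 - 2 * S.p1) * (S.f v * (S.e v * S.e v)) +
        S.p1 * S.p1 * (S.e v * S.e v)) := by
    intro v
    have h := S.f01 v
    have h2 : (1 - 2 * S.p1) * (S.f v * (S.e v * S.e v)) + S.p1 * S.p1 * (S.e v * S.e v) =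
      (S.f v - S.p1) * S.e v * ((S.f v - S.p1) * S.e v) := by
      linear_combination (-(S.e v * S.e v)) * h
    rw [h2]
    simp only [map_sub, map_mul]
  simp only [this]
  rw [← map_sum, sum_add_distrib, ← mul_sum, ← mul_sum, S.unit]
  change algebraMap ℝ R ((1 - 2 * S.p1) * S.p1 + S.p1 * S.p1 * 1) = _
  congr 1
  ring

lemma Gop_add (a b : V → R) : S.Gop (a + b) = S.Gop a + S.Gop b := by
  funext v
  simp only [Pi.add_apply, Gop]
  ring

lemma bil_Gop (a b : V → R) : bil a (S.Gop b) = bil (S.Gop a) b := by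
  unfold bil Gop
  exact sum_congr rfl fun v _ => by ring

/-- iterates of the derivative -/
def dvec (y : R) : ℕ → V → R
  | 0 => 0
  | t + 1 => S.Wop (S.Dop y (dvec y t + S.Gop (S.vec y t)))

lemma bil_shift (y : R) (n : ℕ) (x : V → R) :
    bil (S.Dop y (S.vec y n)) (S.Wop (S.Dop y x)) = bil (S.Dop y (S.vec y (n + 1))) x := by
  rw [bil_Wop, bil_Dop]
  rfl

lemma bil_dvec (y : R) (t : ℕ) : ∀ n, bil (S.Dop y (S.vec y n)) (S.dvec y t) =
    ∑ r ∈ range t, bil (S.Dop y (S.vec y (n + t - r))) (S.Gop (S.vec y r)) := by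
  induction t with
  | zero =>
    intro n
    unfold bil dvec
    simp
  | succ t ih =>
    intro n
    change bil (S.Dop y (S.vec y n)) (S.Wop (S.Dop y (S.dvec y t + S.Gop (S.vec y t)))) = _
    rw [bil_shift, bil_add_right, ih, sum_range_succ]
    have e1 : n + (t + 1) - t = n + 1 := by omega
    rw [e1]
    congr 1
    refine sum_congr rfl fun r _ => ?_
    have e2 : n + 1 + t - r = n + (t + 1) - r := by omega
    rw [e2]

/-- the derivative of the generating function -/
lemma bil_ev_dvec (y : R) (t : ℕ) : bil (S.ev R) (S.dvec y (t + 1)) =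
    ∑ r ∈ range (t + 1), bil (S.Dop y (S.vec y (t - r))) (S.Gop (S.vec y r)) := by
  change bil (S.ev R) (S.Wop (S.Dop y (S.dvec y t + S.Gop (S.vec y t)))) = _
  rw [bil_ev_Wop, bil_Dop]
  change bil (S.Dop y (S.vec y 0)) (S.dvec y t + S.Gop (S.vec y t)) = _
  rw [bil_add_right, bil_dvec, sum_range_succ, Nat.sub_self]
  congr 1
  refine sum_congr rfl fun r _ => ?_
  rw [zero_add]

/-! ### maps -/

lemma map_bil (φ : R →ₐ[ℝ] R') (a b : V → R) :
    φ (bil a b) = bil (fun v => φ (a v)) (fun v => φ (b v)) := by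
  unfold bil
  rw [map_sum]
  exact sum_congr rfl fun v _ => by rw [map_mul]

lemma map_ev (φ : R →ₐ[ℝ] R') : (fun v => φ (S.ev R v)) = S.ev R' := by
  funext v
  unfold ev
  exact φ.commutes _

lemma map_Eop (φ : R →ₐ[ℝ] R') (a : V → R) :
    (fun v => φ (S.Eop a v)) = S.Eop (fun v => φ (a v)) := by
  funext v
  unfold Eop
  rw [map_sum]
  exact sum_congr rfl fun v _ => by rw [map_mul, φ.commutes]

lemma map_Wop (φ : R →ₐ[ℝ] R') (a : V → R) :
    (fun v => φ (S.Wop a v)) = S.Wop (fun v => φ (a v)) := by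
  funext v
  unfold Wop
  have h1 := congrFun (S.map_Eop φ a) v
  have h2 := congrFun (S.map_ev φ) v
  rw [map_add, map_mul, map_bil, h1, h2, map_ev]

lemma map_Dop (φ : R →ₐ[ℝ] R') (y : R) (a : V → R) :
    (fun v => φ (S.Dop y a v)) = S.Dop (φ y) (fun v => φ (a v)) := by
  funext v
  unfold Dop
  rw [map_mul, map_add, map_mul, map_sub, map_one, φ.commutes]

lemma map_Gop (φ : R →ₐ[ℝ] R') (a : V → R) :
    (fun v => φ (S.Gop a v)) = S.Gop (fun v => φ (a v)) := by
  funext v
  unfold Gop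
  rw [map_mul, map_sub, φ.commutes, φ.commutes]

lemma map_vec (φ : R →ₐ[ℝ] R') (y : R) (t : ℕ) :
    (fun v => φ (S.vec y t v)) = S.vec (φ y) t := by
  induction t with
  | zero => exact S.map_ev φ
  | succ t ih =>
    change (fun v => φ (S.Wop (S.Dop y (S.vec y t)) v)) = S.Wop (S.Dop (φ y) (S.vec (φ y) t))
    rw [map_Wop, map_Dop, ih]

lemma map_U (φ : R →ₐ[ℝ] R') (y : R) (t : ℕ) : φ (S.U y t) = S.U (φ y) t := by
  unfold U
  rw [map_bil, map_vec, map_ev]

lemma map_dvec (φ : R →ₐ[ℝ] R') (y : R) (t : ℕ) :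
    (fun v => φ (S.dvec y t v)) = S.dvec (φ y) t := by
  induction t with
  | zero => funext v; exact map_zero φ
  | succ t ih =>
    change (fun v => φ (S.Wop (S.Dop y (S.dvec y t + S.Gop (S.vec y t))) v)) =
      S.Wop (S.Dop (φ y) (S.dvec (φ y) t + S.Gop (S.vec (φ y) t)))
    rw [map_Wop, map_Dop, ← ih, ← S.map_vec φ y t, ← map_Gop]
    congr 2
    funext v
    simp only [Pi.add_apply, map_add]

end Sys

end Pool.Agent.Work.MP_866acd_pr
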