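import Pool.Agent.Work.MP_866acd_pr.Final

/-!
Regular graphs.
-/

namespace Pool.Agent.Work.MP_866acd_pr

open Finset Filter Topology

lemma lam_nonneg {V : Type} [Fintype V] [Nonempty V] (W : V → V → ℝ)
    (hs : ∀ v w, W v w = W w v) (h1 : ∀ v, ∑ w, W v w = 1) (val : V → Fin 2) {p : Fin 2 → ℝ}
    (hp0 : 0 < p 0) (hp1 : 0 < p 1) (hw : HasWeights val p) {lam : ℝ}
    (hexp : ∀ (μ : ℝ) (u : V → ℝ), u ≠ 0 → ∑ v, u v = 0 →
      (∀ v, ∑ w, W v w * u w = μ * u v) → |μ| ≤ lam) : 0 ≤ lam := by
  classical
  by_contra hneg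
  push Not at hneg
  have hn : (0 : ℝ) < Fintype.card V := by exact_mod_cast Fintype.card_pos
  set M : Matrix V V ℝ := Matrix.of fun v w => W v w - 1 / Fintype.card V with hM
  have hH : M.IsHermitian := by
    ext v w
    simp only [hM, Matrix.conjTranspose_apply, Matrix.of_apply, star_trivial]
    rw [hs]
  have hcol : ∀ w, ∑ v, M v w = 0 := by
    intro w
    simp only [hM, Matrix.of_apply]
    rw [sum_sub_distrib, sum_const, card_univ, nsmul_eq_mul]
    have : ∑ v, W v w = 1 := by
      rw [← h1 w]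
      exact sum_congr rfl fun v _ => hs v w
    rw [this]
    field_simp
    ring
  have hev : hH.eigenvalues = 0 := by
    funext i
    by_contra hz
    change ¬ hH.eigenvalues i = 0 at hz
    set u : V → ℝ := (hH.eigenvectorBasis i).ofLp with hu
    have hune : u ≠ 0 := by
      intro h
      have h2 : hH.eigenvectorBasis i = 0 := by
        ext v
        exact congrFun h v
      have h3 := hH.eigenvectorBasis.orthonormal.1 i
      rw [h2, norm_zero] at h3
      exact zero_ne_one h3
    have hMu : ∀ v, ∑ w, M v w * u w = hH.eigenvalues i * u v := by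
      intro v
      have h2 := hH.mulVec_eigenvectorBasis i
      have h3 := congrFun h2 v
      simpa [Matrix.mulVec, dotProduct] using h3
    have hsum : ∑ v, u v = 0 := by
      have h2 : hH.eigenvalues i * ∑ v, u v = 0 := by
        rw [mul_sum]
        simp only [← hMu]
        rw [sum_comm]
        simp only [← sum_mul, hcol, zero_mul, sum_const_zero]
      exact (mul_eq_zero.1 h2).resolve_left hz
    have h5 := hexp (hH.eigenvalues i) u hune hsum (by
      intro v
      rw [← hMu v]
      simp only [hM, Matrix.of_apply, sub_mul]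
      rw [sum_sub_distrib, ← mul_sum, hsum, mul_zero, sub_zero])
    linarith [abs_nonneg (hH.eigenvalues i)]
  have hM0 : M = 0 := hH.eigenvalues_eq_zero_iff.1 hev
  have hW : ∀ v w, W v w = 1 / Fintype.card V := by
    intro v w
    have h2 := congrFun (congrFun hM0 v) w
    simp only [hM, Matrix.of_apply, Matrix.zero_apply] at h2
    linarith
  have hex : ∀ b, ∃ v, val v = b := by
    intro b
    by_contra hcon
    push Not at hcon
    have h2 := hw b
    have h3 : (univ.filter fun v => val v = b) = ∅ := by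
      ext v; simp [hcon v]
    rw [h3, card_empty, Nat.cast_zero] at h2
    have hb : 0 < p b := by fin_cases b <;> assumption
    have := mul_pos hb hn
    linarith
  obtain ⟨v0, hv0⟩ := hex 0
  obtain ⟨v1, hv1⟩ := hex 1
  have hne : v0 ≠ v1 := by
    intro h
    rw [h, hv1] at hv0
    exact absurd hv0 (by decide)
  set u : V → ℝ := Pi.single v0 1 - Pi.single v1 1 with hu
  have hsu : ∑ v, u v = 0 := by
    simp only [hu, Pi.sub_apply, sum_sub_distrib, sum_pi_single', mem_univ, if_true, sub_self]
  have hune : u ≠ 0 := by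
    intro h
    have h2 := congrFun h v0
    simp [hu, hne] at h2
  have h5 := hexp 0 u hune hsu (by
    intro v
    simp only [hW]
    rw [← mul_sum, hsu]
    ring)
  rw [abs_zero] at h5
  linarith

theorem graph_result (p : Fin 2 → ℝ) (h0 : 0 < p 0) (h1 : 0 < p 1) (hp : p 0 + p 1 = 1) :
    ∃ C : ℝ, ∀ (V : Type) [Fintype V] [Nonempty V] (G : RegGraph V) (lam : ℝ),
      lam ≤ 1 / 100 → G.IsExpander lam →
      ∀ val : V → Fin 2, HasWeights val p →
      ∀ σ2 : ℝ, IsAsympVar (fun _ => 1 / (Fintype.card V : ℝ)) G.W val σ2 →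
      ∀ t : ℕ, 0 < t →
        dTV (sumLaw (fun _ => 1 / (Fintype.card V : ℝ)) G.W val t)
          (sumLaw p (sticky ((σ2 - p 0 * p 1) / (σ2 + p 0 * p 1)) p) id t) ≤
        C * lam / Real.sqrt t := by
  obtain ⟨C, hC, H⟩ := final p h0 h1 hp
  refine ⟨C, ?_⟩
  intro V _ _ G lam hl hexp val hval σ2 hσ t ht
  have hd : (0 : ℝ) < G.deg := by exact_mod_cast G.deg_pos
  have hs : ∀ v w, G.W v w = G.W w v := by
    intro v w
    unfold RegGraph.W
    rw [G.symm]
  have hW : ∀ v, ∑ w, G.W v w = 1 := by
    intro v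
    unfold RegGraph.W
    rw [← sum_div, div_eq_one_iff_eq hd.ne']
    exact_mod_cast G.regular v
  have hl0 : 0 ≤ lam := lam_nonneg G.W hs hW val h0 h1 hval hexp
  have h := (H V G.W hs hW lam hl0 hl hexp val hval σ2 hσ).2 t
  refine h.trans ?_
  have ht' : (0 : ℝ) < t := by exact_mod_cast ht
  apply div_le_div_of_nonneg_left (mul_nonneg hC hl0) (Real.sqrt_pos.2 ht')
  apply Real.sqrt_le_sqrt
  linarith

end Pool.Agent.Work.MP_866acd_pr
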